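import Pool.Agent.D0H78.KG.Haar

/-!
# The growth of the number of invariants
-/

set_option autoImplicit false
set_option linter.unusedSectionVars false

open Matrix Module MeasureTheory
open scoped Matrix.Norms.L2Operator

namespace Pool.Agent.D0H78.KG

open Pool.Agent.D0H93.MT

variable {ι : Type} [Fintype ι] [DecidableEq ι]

/-- The sum of the squares of the entries. -/
noncomputable def hs (M : Matrix ι ι ℂ) : ℝ := ∑ i, ∑ j, ‖M i j‖ ^ 2

lemma hs_nonneg (M : Matrix ι ι ℂ) : 0 ≤ hs M :=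
  Finset.sum_nonneg fun _ _ => Finset.sum_nonneg fun _ _ => by positivity

lemma norm_sq_le_hs (M : Matrix ι ι ℂ) : ‖M‖ ^ 2 ≤ hs M := by
  have h : ‖M‖ ≤ Real.sqrt (hs M) := by
    rw [Matrix.cstar_norm_def]
    refine ContinuousLinearMap.opNorm_le_bound _ (Real.sqrt_nonneg _) fun x => ?_
    refine (sq_le_sq₀ (by positivity) (by positivity)).mp ?_
    rw [mul_pow, Real.sq_sqrt (hs_nonneg M), EuclideanSpace.norm_sq_eq, hs, Finset.sum_mul]
    refine Finset.sum_le_sum fun i _ => ?_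
    have h1 : (Matrix.toEuclideanCLM (n := ι) (𝕜 := ℂ) M x) i = ∑ j, M i j * x j := rfl
    rw [h1, EuclideanSpace.norm_sq_eq]
    have h2 : ‖∑ j, M i j * x j‖ ≤ ∑ j, ‖M i j‖ * ‖x j‖ :=
      (norm_sum_le _ _).trans_eq (by simp only [Complex.norm_mul])
    calc ‖∑ j, M i j * x j‖ ^ 2 ≤ (∑ j, ‖M i j‖ * ‖x j‖) ^ 2 :=
          pow_le_pow_left₀ (norm_nonneg _) h2 2
      _ ≤ _ := Finset.sum_mul_sq_le_sq_mul_sq _ _ _
  calc ‖M‖ ^ 2 ≤ (Real.sqrt (hs M)) ^ 2 := pow_le_pow_left₀ (norm_nonneg _) h 2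
    _ = _ := Real.sq_sqrt (hs_nonneg M)

lemma hs_le (M : Matrix ι ι ℂ) : hs M ≤ Fintype.card ι * ‖M‖ ^ 2 := by
  rw [hs, Finset.sum_comm]
  refine (Finset.sum_le_sum (g := fun _ => ‖M‖ ^ 2) fun j _ => ?_).trans_eq (by simp)
  have h1 : ‖(WithLp.toLp 2 (M *ᵥ Pi.single j 1) : EuclideanSpace ℂ ι)‖ ≤
      ‖M‖ * ‖(WithLp.toLp 2 (Pi.single j (1 : ℂ)) : EuclideanSpace ℂ ι)‖ :=
    Matrix.l2_opNorm_mulVec M (WithLp.toLp 2 (Pi.single j 1))
  have h2 : ‖(WithLp.toLp 2 (Pi.single j (1 : ℂ)) : EuclideanSpace ℂ ι)‖ = 1 := by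
    have := PiLp.norm_single (p := 2) (β := fun _ : ι => ℂ) j (1 : ℂ)
    rw [norm_one] at this
    exact this
  rw [h2, mul_one] at h1
  have h3 := pow_le_pow_left₀ (norm_nonneg _) h1 2
  rw [EuclideanSpace.norm_sq_eq] at h3
  simpa using h3

lemma hs_sub {k : Matrix ι ι ℂ} (hk : k * kᴴ = 1) {lam : ℂ} (hl : ‖lam‖ = 1) :
    hs (k - lam • (1 : Matrix ι ι ℂ)) =
      2 * Fintype.card ι - 2 * ((starRingEnd ℂ) lam * k.trace).re := by
  have h1 : ((hs (k - lam • (1 : Matrix ι ι ℂ)) : ℝ) : ℂ) =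
      ((k - lam • (1 : Matrix ι ι ℂ)) * (k - lam • (1 : Matrix ι ι ℂ))ᴴ).trace := by
    rw [hs, Matrix.trace]
    push_cast
    refine Finset.sum_congr rfl fun i _ => ?_
    rw [Matrix.diag, Matrix.mul_apply]
    refine Finset.sum_congr rfl fun j _ => ?_
    rw [Matrix.conjTranspose_apply, Complex.star_def, Complex.mul_conj, Complex.normSq_eq_norm_sq]
    push_cast
    rfl
  have h2 : (k - lam • (1 : Matrix ι ι ℂ)) * (k - lam • (1 : Matrix ι ι ℂ))ᴴ =
      (2 : ℂ) • (1 : Matrix ι ι ℂ) - ((starRingEnd ℂ) lam • k + lam • kᴴ) := by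
    rw [Matrix.conjTranspose_sub, Matrix.conjTranspose_smul, Matrix.conjTranspose_one, sub_mul,
      mul_sub, mul_sub, hk, mul_smul_comm, mul_one, smul_mul_assoc, one_mul, smul_mul_assoc,
      one_mul, smul_smul, Complex.star_def, Complex.mul_conj, Complex.normSq_eq_norm_sq, hl]
    simp only [one_pow, Complex.ofReal_one, one_smul, two_smul]
    abel
  have h3 : (k.trace) + 0 = k.trace := add_zero _
  rw [h2, Matrix.trace_sub, Matrix.trace_smul, Matrix.trace_add, Matrix.trace_smul,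
    Matrix.trace_smul, Matrix.trace_conjTranspose, Matrix.trace_one] at h1
  have h4 := congrArg Complex.re h1
  rw [Complex.ofReal_re] at h4
  rw [h4]
  simp only [smul_eq_mul, Complex.sub_re, Complex.add_re, Complex.mul_re, Complex.star_def,
    Complex.conj_re, Complex.conj_im, Complex.natCast_re, Complex.natCast_im]
  norm_num
  ring

namespace Dat

variable (D : Dat ι)

lemma norm_one_le : ‖(1 : Matrix ι ι ℂ)‖ ≤ 1 := by
  have h5 := Matrix.l2_opNorm_diagonal (𝕜 := ℂ) (fun _ : ι => (1 : ℂ))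
  rw [Matrix.diagonal_one] at h5
  rw [h5]
  exact (pi_norm_le_iff_of_nonneg zero_le_one).2 fun _ => by simp

include D in
lemma card_pos : (1 : ℝ) ≤ Fintype.card ι := by
  obtain ⟨i, -⟩ := Function.ne_iff.1 D.v0
  have : 0 < Fintype.card ι := Fintype.card_pos_iff.2 ⟨i⟩
  exact_mod_cast this

lemma trace_lower (g : D.K) :
    Fintype.card ι * (1 - ‖D.m g - 1‖ ^ 2 / 2) ≤ ‖(D.m g).trace‖ := by
  have h1 := hs_sub (D.m_unit g) (lam := 1) (by simp)
  have h2 := hs_le (D.m g - (1 : ℂ) • (1 : Matrix ι ι ℂ))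
  rw [one_smul] at h1 h2
  rw [h1, map_one, one_mul] at h2
  have h3 := Complex.re_le_norm (D.m g).trace
  linarith

lemma trace_upper (g : D.K) :
    ‖(D.m g).trace‖ ≤ Fintype.card ι - ‖D.m g - 1‖ ^ 2 / 8 := by
  obtain ⟨lam, hl, hlt⟩ : ∃ lam : ℂ, ‖lam‖ = 1 ∧
      ((starRingEnd ℂ) lam * (D.m g).trace).re = ‖(D.m g).trace‖ := by
    by_cases h0 : (D.m g).trace = 0
    · exact ⟨1, by simp, by simp [h0]⟩
    · have hn : ((‖(D.m g).trace‖ : ℝ) : ℂ) ≠ 0 := by
        exact_mod_cast (norm_pos_iff.2 h0).ne'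
      refine ⟨(D.m g).trace / ‖(D.m g).trace‖, by simp [h0], ?_⟩
      rw [map_div₀, Complex.conj_ofReal, div_mul_eq_mul_div, mul_comm, Complex.mul_conj,
        Complex.normSq_eq_norm_sq, ← Complex.ofReal_div, Complex.ofReal_re, sq,
        mul_div_assoc, div_self (norm_pos_iff.2 h0).ne', mul_one]
  have h1 := hs_sub (D.m_unit g) hl
  have h2 := norm_sq_le_hs (D.m g - lam • (1 : Matrix ι ι ℂ))
  rw [h1, hlt] at h2
  have h3 : ‖lam - 1‖ ≤ ‖D.m g - lam • (1 : Matrix ι ι ℂ)‖ := by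
    have h4 : ‖(WithLp.toLp 2 ((D.m g - lam • (1 : Matrix ι ι ℂ)) *ᵥ D.v) :
        EuclideanSpace ℂ ι)‖ ≤ ‖D.m g - lam • (1 : Matrix ι ι ℂ)‖ *
          ‖(WithLp.toLp 2 D.v : EuclideanSpace ℂ ι)‖ :=
      Matrix.l2_opNorm_mulVec _ (WithLp.toLp 2 D.v)
    have h5 : (WithLp.toLp 2 ((D.m g - lam • (1 : Matrix ι ι ℂ)) *ᵥ D.v) :
        EuclideanSpace ℂ ι) = (1 - lam) • WithLp.toLp 2 D.v := by
      rw [Matrix.sub_mulVec, D.m_v, Matrix.smul_mulVec, Matrix.one_mulVec, sub_smul, one_smul]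
      rfl
    rw [h5, norm_smul] at h4
    have h6 : 0 < ‖(WithLp.toLp 2 D.v : EuclideanSpace ℂ ι)‖ := by
      rw [norm_pos_iff]
      intro h8
      exact D.v0 (congrArg WithLp.ofLp h8)
    rw [norm_sub_rev]
    exact le_of_mul_le_mul_right h4 h6
  have h4 : ‖D.m g - 1‖ ≤ 2 * ‖D.m g - lam • (1 : Matrix ι ι ℂ)‖ := by
    have h5 : D.m g - 1 = (D.m g - lam • (1 : Matrix ι ι ℂ)) + (lam - 1) • (1 : Matrix ι ι ℂ) := by
      rw [sub_smul, one_smul]; abel
    rw [h5]
    refine (norm_add_le _ _).trans ?_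
    have h6 : ‖(lam - 1) • (1 : Matrix ι ι ℂ)‖ ≤ ‖lam - 1‖ := by
      rw [norm_smul]
      exact mul_le_of_le_one_right (norm_nonneg _) norm_one_le
    linarith
  have h5 : ‖D.m g - 1‖ ^ 2 ≤ (2 * ‖D.m g - lam • (1 : Matrix ι ι ℂ)‖) ^ 2 :=
    pow_le_pow_left₀ (norm_nonneg _) h4 2
  rw [mul_pow] at h5
  linarith

lemma integrable_real {f : D.K → ℝ} (hf : Continuous f) : Integrable f D.μ :=
  hf.integrable_of_hasCompactSupport (HasCompactSupport.of_compactSpace f)

lemma trace_cont : Continuous fun g => ‖(D.m g).trace‖ :=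
  (D.m_cont.matrix_trace).norm

lemma trace_pow_cont (m : ℕ) : Continuous fun g => ‖(D.m g).trace‖ ^ m := D.trace_cont.pow m

/-- The number of invariants, from below. -/
theorem lower : ∃ c : ℝ, 0 < c ∧ ∀ n : ℕ, 1 ≤ n →
    c * (Fintype.card ι : ℝ) ^ (2 * n) ≤
      finrank ℂ (D.Inv n) * Real.sqrt n ^ finrank ℂ D.L0 := by
  set d := finrank ℂ D.L0 with hd
  obtain ⟨c, hc, hvol⟩ := D.vol_lower (d := d) D.finrank_k
  refine ⟨c / (2 * D.tot * Real.sqrt 2 ^ d), div_pos hc (by have := D.tot_pos; positivity),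
    fun n hn => ?_⟩
  have hn0 : (0 : ℝ) < n := by exact_mod_cast hn
  have hb := D.card_pos
  set r : ℝ := 1 / Real.sqrt (2 * n) with hr
  have hs0 : 0 < Real.sqrt (2 * n) := Real.sqrt_pos.2 (by positivity)
  have hr0 : 0 < r := by positivity
  have hn1 : (1 : ℝ) ≤ n := by exact_mod_cast hn
  have hr1 : r ≤ 1 := by
    rw [hr, div_le_one hs0]
    exact Real.one_le_sqrt.2 (by linarith)
  have hr2 : r ^ 2 = 1 / (2 * n) := by
    rw [hr, div_pow, Real.sq_sqrt (by positivity), one_pow]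
  have h1 : ∀ g : D.K, (D.Bl 1 r).indicator (fun _ => (Fintype.card ι : ℝ) ^ (2 * n) / 2) g ≤
      ‖(D.m g).trace‖ ^ (2 * n) := by
    intro g
    by_cases hg : g ∈ D.Bl 1 r
    · rw [Set.indicator_of_mem hg]
      have h2 : ‖D.m g - 1‖ ≤ r := hg
      have h3 : ‖D.m g - 1‖ ^ 2 ≤ 1 / (2 * n) := by
        rw [← hr2]; exact pow_le_pow_left₀ (norm_nonneg _) h2 2
      have h4 : (Fintype.card ι : ℝ) * (1 - 1 / (4 * n)) ≤ ‖(D.m g).trace‖ := by
        refine le_trans (mul_le_mul_of_nonneg_left ?_ (by positivity)) (D.trace_lower g)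
        have : (1 : ℝ) / (4 * n) = 1 / (2 * n) / 2 := by field_simp; ring
        linarith
      have h5 : (0 : ℝ) ≤ 1 - 1 / (4 * n) := by
        have : (1 : ℝ) / (4 * n) ≤ 1 := by
          rw [div_le_one (by positivity)]; linarith
        linarith
      refine le_trans ?_ (pow_le_pow_left₀ (by positivity) h4 (2 * n))
      rw [mul_pow]
      have h6 : (1 : ℝ) / 2 ≤ (1 - 1 / (4 * n)) ^ (2 * n) := by
        have h7 := one_add_mul_le_pow (a := -(1 / (4 * (n : ℝ)))) (by linarith) (2 * n)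
        have h8 : 1 + ((2 * n : ℕ) : ℝ) * -(1 / (4 * (n : ℝ))) = 1 / 2 := by
          push_cast
          field_simp
          ring
        rw [h8] at h7
        rw [sub_eq_add_neg]
        exact h7
      have h7 : (0 : ℝ) ≤ (Fintype.card ι : ℝ) ^ (2 * n) := by positivity
      nlinarith
    · rw [Set.indicator_of_notMem hg]
      positivity
  have h2 := integral_mono (μ := D.μ) ((integrable_const _).indicator (D.measurable_Bl 1 r))
    (D.integrable_real (D.trace_pow_cont (2 * n))) h1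
  rw [integral_indicator_const _ (D.measurable_Bl 1 r), ← D.finrank_eq, smul_eq_mul] at h2
  have h3 := hvol r hr0 hr1
  have h4 : D.μ.real (D.Bl 1 r) = D.vol r := rfl
  rw [h4] at h2
  have h5 : r ^ d * (Real.sqrt 2 ^ d * Real.sqrt n ^ d) = 1 := by
    rw [← mul_pow, ← Real.sqrt_mul (by norm_num), ← mul_pow, hr, one_div,
      inv_mul_cancel₀ hs0.ne', one_pow]
  have ht := D.tot_pos
  have hsd : 0 < Real.sqrt 2 ^ d := by positivity
  have hsn : 0 < Real.sqrt (n : ℝ) ^ d := by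
    have : 0 < Real.sqrt (n : ℝ) := Real.sqrt_pos.2 hn0
    positivity
  have h6 : c * r ^ d * ((Fintype.card ι : ℝ) ^ (2 * n) / 2) ≤
      finrank ℂ (D.Inv n) * D.tot :=
    (mul_le_mul_of_nonneg_right h3 (by positivity)).trans h2
  rw [div_mul_eq_mul_div, div_le_iff₀ (by positivity)]
  have h7 : c * (Fintype.card ι : ℝ) ^ (2 * n) =
      (c * r ^ d * ((Fintype.card ι : ℝ) ^ (2 * n) / 2)) *
        (2 * (Real.sqrt 2 ^ d * Real.sqrt n ^ d)) := by
    calc c * (Fintype.card ι : ℝ) ^ (2 * n) =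
        c * (Fintype.card ι : ℝ) ^ (2 * n) * 1 := (mul_one _).symm
      _ = c * (Fintype.card ι : ℝ) ^ (2 * n) *
          (r ^ d * (Real.sqrt 2 ^ d * Real.sqrt n ^ d)) := by rw [h5]
      _ = _ := by ring
  rw [h7]
  calc _ ≤ finrank ℂ (D.Inv n) * D.tot * (2 * (Real.sqrt 2 ^ d * Real.sqrt n ^ d)) :=
        mul_le_mul_of_nonneg_right h6 (by positivity)
    _ = _ := by ring

/-- The number of invariants, from above. -/
theorem upper : ∃ C : ℝ, 0 < C ∧ ∀ n : ℕ, 1 ≤ n →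
    finrank ℂ (D.Inv n) * Real.sqrt n ^ finrank ℂ D.L0 ≤
      C * (Fintype.card ι : ℝ) ^ (2 * n) := by
  set d := finrank ℂ D.L0 with hd
  obtain ⟨C, hC, hvol⟩ := D.vol_upper (d := d) D.finrank_k
  have hb := D.card_pos
  set b : ℝ := (Fintype.card ι : ℝ) with hbdef
  have hb0 : 0 < b := by linarith
  let w : ℕ → ℝ := fun j => Real.exp (-(j : ℝ) ^ 2) * ((j : ℝ) + 1) ^ d
  have hw0 : ∀ j, 0 ≤ w j := fun j => by positivity
  have hw : Summable w := by
    have h1 := (summable_nat_add_iff 1).2 (Real.summable_pow_mul_exp_neg_nat_mul d one_pos)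
    refine Summable.of_nonneg_of_le hw0 (fun j => ?_) (h1.mul_left (Real.exp 1))
    have h2 : Real.exp (-(j : ℝ) ^ 2) ≤ Real.exp 1 * Real.exp (-1 * ((j + 1 : ℕ) : ℝ)) := by
      rw [← Real.exp_add]
      refine Real.exp_le_exp.2 ?_
      have h3 : (j : ℝ) ≤ (j : ℝ) ^ 2 := by
        have : j ≤ j ^ 2 := Nat.le_self_pow two_ne_zero j
        exact_mod_cast this
      push_cast
      linarith
    calc w j ≤ (Real.exp 1 * Real.exp (-1 * ((j + 1 : ℕ) : ℝ))) * ((j : ℝ) + 1) ^ d :=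
          mul_le_mul_of_nonneg_right h2 (by positivity)
      _ = _ := by push_cast; ring
  set S := ∑' j, w j with hS
  have hS0 : 0 ≤ S := tsum_nonneg hw0
  have ht := D.tot_pos
  refine ⟨C * (S + 1) * Real.sqrt (4 * b) ^ d / D.tot, by positivity, fun n hn => ?_⟩
  have hn0 : (0 : ℝ) < n := by exact_mod_cast hn
  set a : ℝ := n / (4 * b) with ha
  have ha0 : 0 < a := by positivity
  have hsa : 0 < Real.sqrt a := Real.sqrt_pos.2 ha0
  set J : ℕ := ⌊2 * Real.sqrt a⌋₊ with hJ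
  have h1 : ∀ g : D.K, ‖(D.m g).trace‖ ^ (2 * n) ≤ ∑ j ∈ Finset.range (J + 1),
      (D.Bl 1 (((j : ℝ) + 1) / Real.sqrt a)).indicator
        (fun _ => b ^ (2 * n) * Real.exp (-(j : ℝ) ^ 2)) g := by
    intro g
    set s := ‖D.m g - 1‖ with hs
    have hs0 : 0 ≤ s := norm_nonneg _
    have hs2 : s ≤ 2 := by
      have h2 : ‖D.m g‖ ≤ 1 := by
        have h3 := D.norm_mul g 1
        rw [mul_one] at h3
        rw [h3]
        exact norm_one_le
      have h3 := norm_sub_le (D.m g) 1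
      have h4 := norm_one_le (ι := ι)
      linarith
    set j := ⌊s * Real.sqrt a⌋₊ with hj
    have hj1 : (j : ℝ) ≤ s * Real.sqrt a := Nat.floor_le (by positivity)
    have hj2 : s * Real.sqrt a < j + 1 := Nat.lt_floor_add_one _
    have hjJ : j ∈ Finset.range (J + 1) := by
      rw [Finset.mem_range]
      exact Nat.lt_succ_of_le (Nat.floor_le_floor (mul_le_mul_of_nonneg_right hs2 hsa.le))
    have hg : g ∈ D.Bl 1 (((j : ℝ) + 1) / Real.sqrt a) := by
      change s ≤ _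
      rw [le_div_iff₀ hsa]
      exact hj2.le
    have h2 : ‖(D.m g).trace‖ ^ (2 * n) ≤ b ^ (2 * n) * Real.exp (-(j : ℝ) ^ 2) := by
      have h3 := D.trace_upper g
      have h4 : b - s ^ 2 / 8 ≤ b * Real.exp (-(s ^ 2 / (8 * b))) := by
        have h5 := Real.add_one_le_exp (-(s ^ 2 / (8 * b)))
        have h6 := mul_le_mul_of_nonneg_left h5 hb0.le
        have h7 : b * (-(s ^ 2 / (8 * b)) + 1) = b - s ^ 2 / 8 := by
          field_simp
          ring
        rw [h7] at h6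
        exact h6
      have h5 := pow_le_pow_left₀ (norm_nonneg _) (h3.trans h4) (2 * n)
      refine h5.trans ?_
      rw [mul_pow, ← Real.exp_nat_mul]
      refine mul_le_mul_of_nonneg_left (Real.exp_le_exp.2 ?_) (by positivity)
      have h6 : ((2 * n : ℕ) : ℝ) * -(s ^ 2 / (8 * b)) = -(s * Real.sqrt a) ^ 2 := by
        rw [mul_pow, Real.sq_sqrt ha0.le, ha]
        push_cast
        field_simp
        ring
      rw [h6]
      have h7 := pow_le_pow_left₀ (Nat.cast_nonneg j) hj1 2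
      linarith
    refine h2.trans ?_
    refine le_trans ?_ (Finset.single_le_sum (f := fun j : ℕ =>
      (D.Bl 1 (((j : ℝ) + 1) / Real.sqrt a)).indicator
        (fun _ => b ^ (2 * n) * Real.exp (-(j : ℝ) ^ 2)) g) (fun i _ => ?_) hjJ)
    · change _ ≤ (D.Bl 1 (((j : ℝ) + 1) / Real.sqrt a)).indicator
        (fun _ => b ^ (2 * n) * Real.exp (-(j : ℝ) ^ 2)) g
      rw [Set.indicator_of_mem hg]
    · exact Set.indicator_nonneg (fun _ _ => by positivity) _
  have hint : ∀ j : ℕ, Integrable ((D.Bl 1 (((j : ℝ) + 1) / Real.sqrt a)).indicator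
        (fun _ => b ^ (2 * n) * Real.exp (-(j : ℝ) ^ 2))) D.μ := fun j =>
    (integrable_const _).indicator (D.measurable_Bl 1 _)
  have h2 := integral_mono (μ := D.μ) (D.integrable_real (D.trace_pow_cont (2 * n)))
    (integrable_finsetSum _ fun j _ => hint j) h1
  rw [integral_finsetSum _ fun j _ => hint j, ← D.finrank_eq] at h2
  have h3 : ∑ j ∈ Finset.range (J + 1), ∫ g, (D.Bl 1 (((j : ℝ) + 1) / Real.sqrt a)).indicator
        (fun _ => b ^ (2 * n) * Real.exp (-(j : ℝ) ^ 2)) g ∂D.μ ≤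
      b ^ (2 * n) * (C * S / Real.sqrt a ^ d) := by
    calc _ ≤ ∑ j ∈ Finset.range (J + 1), b ^ (2 * n) * (C / Real.sqrt a ^ d) * w j := by
          refine Finset.sum_le_sum fun j _ => ?_
          rw [integral_indicator_const _ (D.measurable_Bl 1 _), smul_eq_mul]
          have h4 : D.μ.real (D.Bl 1 (((j : ℝ) + 1) / Real.sqrt a)) ≤
              C * (((j : ℝ) + 1) / Real.sqrt a) ^ d := hvol _ (by positivity)
          calc _ ≤ C * (((j : ℝ) + 1) / Real.sqrt a) ^ d *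
                (b ^ (2 * n) * Real.exp (-(j : ℝ) ^ 2)) :=
                mul_le_mul_of_nonneg_right h4 (by positivity)
            _ = _ := by
              simp only [w]
              rw [div_pow]
              ring
      _ = b ^ (2 * n) * (C / Real.sqrt a ^ d) * ∑ j ∈ Finset.range (J + 1), w j := by
          rw [Finset.mul_sum]
      _ ≤ b ^ (2 * n) * (C / Real.sqrt a ^ d) * S :=
          mul_le_mul_of_nonneg_left (hw.sum_le_tsum _ fun j _ => hw0 j) (by positivity)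
      _ = _ := by ring
  have h4 := h2.trans h3
  have h5 : Real.sqrt n ^ d = Real.sqrt (4 * b) ^ d * Real.sqrt a ^ d := by
    rw [← mul_pow, ← Real.sqrt_mul (by positivity), ha, mul_div_cancel₀ _ (by positivity)]
  have hsad : 0 < Real.sqrt a ^ d := by positivity
  rw [div_mul_eq_mul_div, le_div_iff₀ ht]
  calc _ = (finrank ℂ (D.Inv n) * D.tot) * Real.sqrt n ^ d := by ring
    _ ≤ b ^ (2 * n) * (C * S / Real.sqrt a ^ d) * Real.sqrt n ^ d :=
        mul_le_mul_of_nonneg_right h4 (by positivity)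
    _ = b ^ (2 * n) * (C * S) * Real.sqrt (4 * b) ^ d := by
        rw [h5]
        field_simp
    _ ≤ _ := by
        have h6 : C * S ≤ C * (S + 1) := mul_le_mul_of_nonneg_left (by linarith) hC.le
        have h7 : 0 ≤ b ^ (2 * n) * Real.sqrt (4 * b) ^ d := by positivity
        nlinarith

end Dat

end Pool.Agent.D0H78.KG
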