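import Pool.Agent.D0H93.MT.Two

/-!
# The motivic Galois group of a family of motivated endomorphisms
-/

set_option autoImplicit false
set_option linter.unusedSectionVars false

open Matrix Module

namespace Pool.Agent.D0H78.KG

open Pool.Agent.D0H93.MT

variable {ι : Type} [Fintype ι] [DecidableEq ι]

/-- The complex points of the motivic Galois group: the automorphisms of `H^*(X, ℂ)` which fix the
motivated endomorphisms of the tensor powers and the basis vector `e_o` of `H^0`. -/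
def Gp (Mot : Family ι ℚ) (o : ι) : Set (Matrix ι ι ℂ) :=
  {g | IsUnit g.det ∧ (∀ n c, Mot n c → Fixes g (bc ℂ c)) ∧ g *ᵥ Pi.single o 1 = Pi.single o 1}

/-- The endomorphisms of the `n`-th tensor power of `H^*(X, ℂ)` which are fixed by the motivic
Galois group. -/
def IG (Mot : Family ι ℚ) (o : ι) (n : ℕ) : Submodule ℂ (Matrix (Fin n → ι) (Fin n → ι) ℂ) where
  carrier := {c | ∀ g ∈ Gp Mot o, Fixes g c}
  zero_mem' := fun x _ => by unfold Fixes; rw [mul_zero, zero_mul]
  add_mem' := fun {a b} ha hb x hx => by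
    have h1 := ha x hx
    have h2 := hb x hx
    unfold Fixes at *
    rw [mul_add, add_mul, h1, h2]
  smul_mem' := fun r a ha x hx => by
    have h1 := ha x hx
    unfold Fixes at *
    rw [mul_smul_comm, smul_mul_assoc, h1]

/-- The Lie algebra of the motivic Galois group. -/
def LieG (Mot : Family ι ℚ) (o : ι) : Submodule ℂ (Matrix ι ι ℂ) where
  carrier := {x | (∀ n c, Mot n c → Kills x (bc ℂ c)) ∧ x *ᵥ Pi.single o 1 = 0}
  zero_mem' := ⟨fun _ _ _ => Kills.zero _, Matrix.zero_mulVec _⟩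
  add_mem' := fun {a b} ha hb => ⟨fun n c hc => (ha.1 n c hc).add (hb.1 n c hc), by
    rw [Matrix.add_mulVec, ha.2, hb.2, add_zero]⟩
  smul_mem' := fun r a ha => ⟨fun n c hc => (ha.1 n c hc).smul r, by
    rw [Matrix.smul_mulVec, ha.2, smul_zero]⟩

lemma mem_IG {Mot : Family ι ℚ} {o : ι} {n : ℕ} {c : Matrix (Fin n → ι) (Fin n → ι) ℂ} :
    c ∈ IG Mot o n ↔ ∀ g ∈ Gp Mot o, Fixes g c := Iff.rfl

lemma mem_LieG {Mot : Family ι ℚ} {o : ι} {x : Matrix ι ι ℂ} :
    x ∈ LieG Mot o ↔ (∀ n c, Mot n c → Kills x (bc ℂ c)) ∧ x *ᵥ Pi.single o 1 = 0 := Iff.rfl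

end Pool.Agent.D0H78.KG
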