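import Pool.Agent.D0H78.KG.Polar
import Pool.Agent.D0H78.KG.Defs

/-!
# The growth of the number of motivated endomorphisms
-/

set_option autoImplicit false
set_option linter.unusedSectionVars false

open Matrix Module
open scoped Matrix.Norms.L2Operator

namespace Pool.Agent.D0H78.KG

open Pool.Agent.D0H93.MT

variable {ι : Type} [Fintype ι] [DecidableEq ι]

/-- Extension of scalars from the reals. -/
abbrev rc {m m' : Type} (M : Matrix m m' ℝ) : Matrix m m' ℂ := M.map fun x => (x : ℂ)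

lemma rc_mul {m m' m'' : Type} [Fintype m'] (M : Matrix m m' ℝ) (N : Matrix m' m'' ℝ) :
    rc (M * N) = rc M * rc N := by
  ext i j
  simp [Matrix.mul_apply]

lemma rc_bc {m m' : Type} (M : Matrix m m' ℚ) : rc (bc ℝ M) = bc ℂ M := by
  ext i j
  simp

lemma rc_tpow (n : ℕ) (M : Matrix ι ι ℝ) : rc (tpow n M) = tpow n (rc M) := by
  ext I J
  simp [tpow]

lemma rc_one {m : Type} [DecidableEq m] : rc (1 : Matrix m m ℝ) = 1 := by
  ext i j
  by_cases h : i = j
  · subst h; simp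
  · simp [Matrix.one_apply_ne h]

lemma rc_conj {m m' : Type} (M : Matrix m m' ℝ) : (rc M)ᴴ = (rc M)ᵀ := by
  ext i j
  simp

open scoped MatrixOrder in
lemma exists_root {S : Matrix ι ι ℝ} (h : S.PosDef) :
    ∃ B : Matrix ι ι ℝ, IsUnit B.det ∧ S = Bᵀ * B := by
  obtain ⟨B, hB⟩ := CStarAlgebra.nonneg_iff_eq_star_mul_self.mp h.posSemidef.nonneg
  rw [star_eq_conjTranspose, Matrix.conjTranspose_eq_transpose_of_trivial] at hB
  refine ⟨B, ?_, hB⟩
  have h1 := h.det_pos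
  rw [hB, Matrix.det_mul] at h1
  rw [isUnit_iff_ne_zero]
  intro h2
  rw [h2, mul_zero] at h1
  exact lt_irrefl _ h1

/-- Conjugation. -/
def conjE {m : Type} [Fintype m] [DecidableEq m] {A A' : Matrix m m ℂ} (h : A * A' = 1)
    (h' : A' * A = 1) : Matrix m m ℂ ≃ₗ[ℂ] Matrix m m ℂ where
  toFun x := A * x * A'
  invFun x := A' * x * A
  left_inv x := by
    calc A' * (A * x * A') * A = (A' * A) * x * (A' * A) := by simp only [mul_assoc]
      _ = x := by rw [h', one_mul, mul_one]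
  right_inv x := by
    calc A * (A' * x * A) * A' = (A * A') * x * (A * A') := by simp only [mul_assoc]
      _ = x := by rw [h, one_mul, mul_one]
  map_add' x y := by rw [mul_add, add_mul]
  map_smul' r x := by rw [mul_smul_comm, smul_mul_assoc]; rfl

lemma finrank_conj {m : Type} [Fintype m] [DecidableEq m] {A A' : Matrix m m ℂ} (h : A * A' = 1)
    (h' : A' * A = 1) {V W : Submodule ℂ (Matrix m m ℂ)}
    (hVW : ∀ x, x ∈ V ↔ A * x * A' ∈ W) : finrank ℂ V = finrank ℂ W := by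
  have h1 : V.map (conjE h h' : Matrix m m ℂ →ₗ[ℂ] Matrix m m ℂ) = W := by
    ext y
    rw [Submodule.mem_map]
    constructor
    · rintro ⟨x, hx, rfl⟩
      exact (hVW x).1 hx
    · intro hy
      refine ⟨(conjE h h').symm y, ?_, (conjE h h').apply_symm_apply y⟩
      rw [hVW]
      have : A * (conjE h h').symm y * A' = y := (conjE h h').apply_symm_apply y
      rw [this]
      exact hy
  rw [← h1]
  exact (LinearEquiv.finrank_eq ((conjE h h').submoduleMap V))

section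

variable {Mot : Family ι ℚ} {C : Matrix ι ι ℝ} {Q : Matrix ι ι ℚ} {o : ι}

/-- The family in the orthonormal coordinates. -/
def famB (Mot : Family ι ℚ) (B B' : Matrix ι ι ℂ) : Family ι ℂ :=
  fun n c' => ∃ c, Mot n c ∧ c' = tpow n B * bc ℂ c * tpow n B'

/-- The data for the compact group. -/
noncomputable def datOf (pos : (Cᵀ * bc ℝ Q).PosDef)
    (weil : ∀ n c, Mot n c → Fixes C (bc ℝ c))
    (adj : ∀ n c, Mot n c → Mot n (tpow n Q⁻¹ * cᵀ * tpow n Q))
    (proj : Mot 1 (one' (Matrix.single o o 1)))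
    {B : Matrix ι ι ℝ} (hB : IsUnit B.det) (hS : Cᵀ * bc ℝ Q = Bᵀ * B) : Dat ι where
  M := famB Mot (rc B) (rc B⁻¹)
  star := by
    rintro n _ ⟨c, hc, rfl⟩
    refine ⟨_, adj n c hc, ?_⟩
    have hdet : IsUnit Q.det := by
      have h1 := pos.det_pos
      rw [Matrix.det_mul] at h1
      have h2 : (bc ℝ Q).det = algebraMap ℚ ℝ Q.det := (RingHom.map_det _ Q).symm
      rw [h2] at h1
      rw [isUnit_iff_ne_zero]
      intro h3
      rw [h3, map_zero, mul_zero] at h1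
      exact lt_irrefl _ h1
    set c' := tpow n Q⁻¹ * cᵀ * tpow n Q with hc'
    have h3 : tpow n Q * c' = cᵀ * tpow n Q := by
      rw [hc', ← mul_assoc, ← mul_assoc, ← tpow_mul, Matrix.mul_nonsing_inv _ hdet, tpow_one,
        one_mul]
    have h4 : tpow n (bc ℝ Q) * bc ℝ c' = (bc ℝ c)ᵀ * tpow n (bc ℝ Q) := by
      rw [tpow_bc, ← bc_mul, h3, bc_mul]
      rfl
    have h5 : tpow n (Cᵀ * bc ℝ Q) * bc ℝ c' = (bc ℝ c)ᵀ * tpow n (Cᵀ * bc ℝ Q) := by
      have h6 : (tpow n C)ᵀ * (bc ℝ c)ᵀ = (bc ℝ c)ᵀ * (tpow n C)ᵀ := by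
        rw [← Matrix.transpose_mul, ← Matrix.transpose_mul]
        exact congrArg Matrix.transpose (weil n c hc).symm
      have h7 : tpow n Cᵀ = (tpow n C)ᵀ := rfl
      rw [tpow_mul, h7, mul_assoc, h4, ← mul_assoc, h6, mul_assoc]
    have hBn : tpow n B⁻¹ * tpow n B = 1 := by
      rw [← tpow_mul, Matrix.nonsing_inv_mul _ hB, tpow_one]
    have hBn' : tpow n B * tpow n B⁻¹ = 1 := by
      rw [← tpow_mul, Matrix.mul_nonsing_inv _ hB, tpow_one]
    have h8 : (tpow n B⁻¹)ᵀ * (tpow n B)ᵀ = 1 := by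
      rw [← Matrix.transpose_mul, hBn', Matrix.transpose_one]
    have h9 : tpow n B * bc ℝ c' = (tpow n B⁻¹)ᵀ * (bc ℝ c)ᵀ * (tpow n B)ᵀ * tpow n B := by
      have h7 : (tpow n B)ᵀ * (tpow n B * bc ℝ c') = (bc ℝ c)ᵀ * (tpow n B)ᵀ * tpow n B := by
        have e : tpow n Bᵀ = (tpow n B)ᵀ := rfl
        rw [hS, tpow_mul, e] at h5
        rw [← mul_assoc, h5, mul_assoc]
      calc tpow n B * bc ℝ c' = ((tpow n B⁻¹)ᵀ * (tpow n B)ᵀ) * (tpow n B * bc ℝ c') := by
            rw [h8, one_mul]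
        _ = (tpow n B⁻¹)ᵀ * ((tpow n B)ᵀ * (tpow n B * bc ℝ c')) := by rw [mul_assoc]
        _ = _ := by rw [h7]; simp only [mul_assoc]
    have h10 : (tpow n B * bc ℝ c * tpow n B⁻¹)ᵀ = tpow n B * bc ℝ c' * tpow n B⁻¹ := by
      rw [h9, Matrix.transpose_mul, Matrix.transpose_mul]
      simp only [mul_assoc, hBn', mul_one]
    have h11 : rc ((tpow n B * bc ℝ c * tpow n B⁻¹)ᵀ) = rc (tpow n B * bc ℝ c' * tpow n B⁻¹) :=
      congrArg _ h10
    rw [rc_mul, rc_mul, rc_tpow, rc_tpow, rc_bc] at h11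
    rw [← h11]
    have h12 : rc ((tpow n B * bc ℝ c * tpow n B⁻¹)ᵀ) =
        (rc (tpow n B * bc ℝ c * tpow n B⁻¹))ᵀ := rfl
    rw [h12, ← rc_conj, rc_mul, rc_mul, rc_tpow, rc_tpow, rc_bc]
  v := rc B *ᵥ Pi.single o 1
  v0 := by
    intro h
    have h1 := congrArg (fun w => rc B⁻¹ *ᵥ w) h
    simp only [Matrix.mulVec_mulVec, Matrix.mulVec_zero] at h1
    rw [← rc_mul, Matrix.nonsing_inv_mul _ hB, rc_one, Matrix.one_mulVec] at h1
    have h2 := congrFun h1 o
    simp at h2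
  hv := by
    intro x hx
    have hBB : rc B⁻¹ * rc B = 1 := by rw [← rc_mul, Matrix.nonsing_inv_mul _ hB, rc_one]
    have h1 := hx (rc B * Matrix.single o o 1 * rc B⁻¹) ⟨_, proj, by
      have e : bc ℂ (one' (Matrix.single o o (1 : ℚ))) = one' (Matrix.single o o (1 : ℂ)) := by
        have e2 : bc ℂ (Matrix.single o o (1 : ℚ)) = Matrix.single o o (1 : ℂ) := by
          change (Matrix.single o o (1 : ℚ)).map (algebraMap ℚ ℂ) = _
          rw [Matrix.map_single, map_one]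
        rw [← e2]; rfl
      rw [e, tpow_one', tpow_one', one'_mul, one'_mul]⟩
    refine ⟨(rc B⁻¹ * x * rc B) o o, ?_⟩
    have h2 : (rc B * Matrix.single o o 1 * rc B⁻¹) *ᵥ (rc B *ᵥ Pi.single o 1) =
        rc B *ᵥ Pi.single o 1 := by
      rw [Matrix.mulVec_mulVec]
      calc _ = (rc B * Matrix.single o o 1 * (rc B⁻¹ * rc B)) *ᵥ Pi.single o 1 := by
            simp only [mul_assoc]
        _ = rc B *ᵥ (Matrix.single o o 1 *ᵥ Pi.single o 1) := by
            rw [hBB, mul_one, Matrix.mulVec_mulVec]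
        _ = _ := by
            congr 1
            rw [Matrix.mulVec_single_one]
            funext i
            by_cases h : i = o
            · subst h; simp
            · simp [Matrix.single, Ne.symm h, h]
    conv_lhs => rw [← h2]
    rw [Matrix.mulVec_mulVec, h1, ← Matrix.mulVec_mulVec, Matrix.mulVec_mulVec _ _ (rc B),
      ← Matrix.mulVec_mulVec, ← Matrix.mulVec_mulVec, ← Matrix.mulVec_smul]
    congr 1
    have h3 : rc B⁻¹ *ᵥ ((x * rc B) *ᵥ Pi.single o 1) =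
        (rc B⁻¹ * x * rc B) *ᵥ Pi.single o 1 := by
      rw [Matrix.mulVec_mulVec, mul_assoc]
    rw [h3, Matrix.mulVec_single_one]
    funext i
    by_cases h : i = o
    · subst h
      simp [Matrix.mulVec, dotProduct, Matrix.single]
    · simp [Matrix.mulVec, dotProduct, Matrix.single, Ne.symm h, h]

/-- **The growth of the number of motivated endomorphisms.** -/
theorem growth (pos : (Cᵀ * bc ℝ Q).PosDef)
    (weil : ∀ n c, Mot n c → Fixes C (bc ℝ c))
    (adj : ∀ n c, Mot n c → Mot n (tpow n Q⁻¹ * cᵀ * tpow n Q))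
    (proj : Mot 1 (one' (Matrix.single o o 1))) :
    ∃ c C : ℝ, 0 < c ∧ 0 < C ∧ ∀ n : ℕ, 1 ≤ n →
      c * (Fintype.card ι : ℝ) ^ (2 * n) ≤
        finrank ℂ (IG Mot o n) * Real.sqrt n ^ finrank ℂ (LieG Mot o) ∧
      finrank ℂ (IG Mot o n) * Real.sqrt n ^ finrank ℂ (LieG Mot o) ≤
        C * (Fintype.card ι : ℝ) ^ (2 * n) := by
  obtain ⟨B, hB, hS⟩ := exists_root pos
  set D := datOf pos weil adj proj hB hS with hD
  have hBB : rc B⁻¹ * rc B = 1 := by rw [← rc_mul, Matrix.nonsing_inv_mul _ hB, rc_one]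
  have hBB' : rc B * rc B⁻¹ = 1 := by rw [← rc_mul, Matrix.mul_nonsing_inv _ hB, rc_one]
  have hT : ∀ n, tpow n (rc B⁻¹) * tpow n (rc B) = 1 := fun n => by
    rw [← tpow_mul, hBB, tpow_one]
  have hT' : ∀ n, tpow n (rc B) * tpow n (rc B⁻¹) = 1 := fun n => by
    rw [← tpow_mul, hBB', tpow_one]
  have hDM : ∀ n c', D.M n c' ↔ ∃ c, Mot n c ∧ c' = tpow n (rc B) * bc ℂ c * tpow n (rc B⁻¹) :=
    fun n c' => Iff.rfl
  have hDv : D.v = rc B *ᵥ Pi.single o 1 := rfl
  have hcancel : ∀ x : Matrix ι ι ℂ, rc B⁻¹ * (rc B * x * rc B⁻¹) * rc B = x := by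
    intro x
    calc _ = (rc B⁻¹ * rc B) * x * (rc B⁻¹ * rc B) := by simp only [mul_assoc]
      _ = x := by rw [hBB, one_mul, mul_one]
  have hcancel' : ∀ x : Matrix ι ι ℂ, rc B * (rc B⁻¹ * x * rc B) * rc B⁻¹ = x := by
    intro x
    calc _ = (rc B * rc B⁻¹) * x * (rc B * rc B⁻¹) := by simp only [mul_assoc]
      _ = x := by rw [hBB', one_mul, mul_one]
  have hinv : ∀ n, finrank ℂ (IG Mot o n) = finrank ℂ (D.Inv n) := by
    intro n
    refine finrank_conj (hT' n) (hT n) fun c => ?_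
    constructor
    · intro hc k
      have h1 : rc B⁻¹ * D.m k * rc B ∈ Gp Mot o := by
        refine ⟨?_, ?_, ?_⟩
        · have h2 : (rc B⁻¹ * D.m k * rc B) * (rc B⁻¹ * (D.m k)ᴴ * rc B) = 1 := by
            calc _ = rc B⁻¹ * (D.m k * (rc B * rc B⁻¹) * (D.m k)ᴴ) * rc B := by
                  simp only [mul_assoc]
              _ = 1 := by rw [hBB', mul_one, D.m_unit, mul_one, hBB]
          exact (Matrix.isUnit_iff_isUnit_det _).1 (IsUnit.of_mul_eq_one _ h2)
        · intro m c₀ hc₀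
          have h2 := D.m_fix k ((hDM m _).2 ⟨c₀, hc₀, rfl⟩)
          refine Fixes.of_conj hBB' hBB ?_
          rw [hcancel']
          exact h2
        · rw [← Matrix.mulVec_mulVec, ← Matrix.mulVec_mulVec, ← hDv, D.m_v, hDv,
            Matrix.mulVec_mulVec, hBB, Matrix.one_mulVec]
      have h2 := (hc _ h1)
      have h3 := Fixes.conj hBB' hBB h2
      rwa [hcancel'] at h3
    · intro hc g hg
      obtain ⟨hg1, hg2, hg3⟩ := hg
      refine Fixes.of_conj hBB' hBB ?_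
      refine D.fixes_of_inv (g' := rc B * g⁻¹ * rc B⁻¹) ?_ ?_ ?_ hc
      · calc _ = rc B * (g⁻¹ * (rc B⁻¹ * rc B) * g) * rc B⁻¹ := by simp only [mul_assoc]
          _ = 1 := by rw [hBB, mul_one, Matrix.nonsing_inv_mul _ hg1, mul_one, hBB']
      · rintro m _ ⟨c₀, hc₀, rfl⟩
        exact Fixes.conj hBB' hBB (hg2 m c₀ hc₀)
      · rw [hDv, Matrix.mulVec_mulVec]
        calc _ = (rc B * g * (rc B⁻¹ * rc B)) *ᵥ Pi.single o 1 := by simp only [mul_assoc]
          _ = _ := by rw [hBB, mul_one, ← Matrix.mulVec_mulVec, hg3]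
  have hlie : finrank ℂ (LieG Mot o) = finrank ℂ D.L0 := by
    refine finrank_conj hBB' hBB fun x => ?_
    constructor
    · rintro ⟨hx1, hx2⟩
      refine ⟨?_, ?_⟩
      · rintro m _ ⟨c₀, hc₀, rfl⟩
        exact Kills.conj hBB' hBB (hx1 m c₀ hc₀)
      · rw [hDv, Matrix.mulVec_mulVec]
        calc _ = (rc B * x * (rc B⁻¹ * rc B)) *ᵥ Pi.single o 1 := by simp only [mul_assoc]
          _ = _ := by rw [hBB, mul_one, ← Matrix.mulVec_mulVec, hx2, Matrix.mulVec_zero]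
    · rintro ⟨hx1, hx2⟩
      refine ⟨fun m c₀ hc₀ => ?_, ?_⟩
      · exact Kills.of_conj hBB' hBB (hx1 m _ ⟨c₀, hc₀, rfl⟩)
      · rw [hDv] at hx2
        have h1 : (rc B⁻¹ * (rc B * x * rc B⁻¹) * rc B) *ᵥ Pi.single o 1 = 0 := by
          rw [← Matrix.mulVec_mulVec, ← Matrix.mulVec_mulVec, hx2, Matrix.mulVec_zero]
        rwa [hcancel] at h1
  obtain ⟨c, hc, h1⟩ := D.lower
  obtain ⟨C', hC', h2⟩ := D.upper
  refine ⟨c, C', hc, hC', fun n hn => ?_⟩
  rw [hinv n, hlie]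
  exact ⟨h1 n hn, h2 n hn⟩

end

end Pool.Agent.D0H78.KG
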