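import Pool.Agent.D0H78.KG.Trb
import Pool.Agent.D0H78.KG.Defs
import Pool.Agent.D0H78.LG.DRB

/-!
# The transcendence degree of the periods is at most the dimension of the group
-/

set_option autoImplicit false
set_option linter.unusedSectionVars false

open Matrix Module

namespace Pool.Agent.D0H78.KG

noncomputable section

open TensorProduct

open scoped IntermediateField.algebraAdjoinAdjoin in
/-- Derivations dual to algebraically independent elements. -/
theorem exists_dual_derivation {K L τ : Type} [Field K] [Field L] [CharZero K] [Algebra K L]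
    {y : τ → L} (hy : AlgebraicIndependent K y) (k : τ) :
    ∃ D : Derivation K L L, D (y k) = 1 ∧ ∀ j, j ≠ k → D (y j) = 0 := by
  classical
  obtain ⟨B, hB, hb⟩ := exists_isTranscendenceBasis_superset (R := K) hy.to_subtype_range
  have hyB : ∀ j, y j ∈ B := fun j => hB ⟨j, rfl⟩
  let v : B → L := fun b => (b : L)
  have halg := hb.isAlgebraic_field
  let A := Algebra.adjoin K (Set.range v)
  let F := IntermediateField.adjoin K (Set.range v)
  have hAF : Algebra.FormallyEtale A F := .of_isLocalization (nonZeroDivisors _)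
  have hFL : Algebra.FormallyEtale F L := Algebra.FormallyEtale.of_isSeparable _ L
  have hAL : Algebra.FormallyEtale A L := .comp A F L
  let eqv : MvPolynomial B K ≃ₐ[K] A := hb.1.aevalEquiv
  let b₀ : B := ⟨y k, hyB k⟩
  let D₀ : Derivation K A L :=
    { toFun := fun a => algebraMap A L (eqv (MvPolynomial.pderiv b₀ (eqv.symm a)))
      map_add' := fun a b => by simp only [map_add]
      map_smul' := fun c a => by
        rw [map_smul, Derivation.map_smul, map_smul]
        rfl
      map_one_eq_zero' := by simp
      leibniz' := fun a b => by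
        simp only [map_mul, Derivation.leibniz, map_add, smul_eq_mul, AlgEquiv.apply_symm_apply,
          LinearMap.coe_mk, AddHom.coe_mk]
        rw [Algebra.smul_def, Algebra.smul_def] }
  let lin : Ω[L⁄K] →ₗ[L] L := (LinearMap.liftBaseChange L D₀.liftKaehlerDifferential) ∘ₗ
    (KaehlerDifferential.tensorKaehlerEquivOfFormallyEtale K A L).symm.toLinearMap
  have key : ∀ j, lin.compDer (KaehlerDifferential.D K L) (y j) =
      algebraMap A L (eqv (MvPolynomial.pderiv b₀ (MvPolynomial.X ⟨y j, hyB j⟩))) := by
    intro j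
    have hxA : y j ∈ A := Algebra.subset_adjoin ⟨⟨y j, hyB j⟩, rfl⟩
    have h2 : eqv.symm ⟨y j, hxA⟩ = MvPolynomial.X ⟨y j, hyB j⟩ := by
      rw [AlgEquiv.symm_apply_eq]
      apply Subtype.ext
      change y j = ((hb.1.aevalEquiv (MvPolynomial.X ⟨y j, hyB j⟩) : A) : L)
      rw [AlgebraicIndependent.aevalEquiv_apply_coe, MvPolynomial.aeval_X]
    change lin (KaehlerDifferential.D K L (algebraMap A L ⟨y j, hxA⟩)) = _
    change (LinearMap.liftBaseChange L D₀.liftKaehlerDifferential)
      ((KaehlerDifferential.tensorKaehlerEquivOfFormallyEtale K A L).symm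
        (KaehlerDifferential.D K L (algebraMap A L ⟨y j, hxA⟩))) = _
    rw [KaehlerDifferential.tensorKaehlerEquivOfFormallyEtale_symm_D_algebraMap,
      LinearMap.liftBaseChange_tmul, one_smul, Derivation.liftKaehlerDifferential_comp_D]
    change algebraMap A L (eqv (MvPolynomial.pderiv b₀ (eqv.symm ⟨y j, hxA⟩))) = _
    rw [h2]
  refine ⟨lin.compDer (KaehlerDifferential.D K L), ?_, fun j hj => ?_⟩
  · rw [key k, MvPolynomial.pderiv_X_self, map_one, map_one]
  · have hne : (⟨y j, hyB j⟩ : B) ≠ b₀ := by
      intro h
      exact hj (hy.injective (congrArg Subtype.val h))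
    rw [key j, MvPolynomial.pderiv_X_of_ne hne, map_zero, map_zero]

end

open Pool.Agent.D0H93.MT Pool.Agent.D0H78.LG

variable {ι : Type} [Fintype ι] [DecidableEq ι]

/-- The entries of the period matrix. -/
def entries (P : Matrix ι ι ℂ) : ι × ι → ℂ := fun p => P p.1 p.2

/-- **The transcendence degree of the periods is at most the dimension of the group.** -/
theorem td_le {F : Subfield ℂ} {P : Matrix ι ι ℂ} (hP : IsUnit P.det) {o : ι}
    (hPo : P *ᵥ Pi.single o 1 = Pi.single o 1) {Mot : Family ι ℚ}
    (drb : ∀ n c, Mot n c → IsDRB F P n c) :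
    Hil.td F (entries P) ≤ finrank ℂ (LieG Mot o) := by
  obtain ⟨e, he, -⟩ := Hil.exists_basis (K := F) (entries P)
  choose D hD1 hD2 using fun k => exists_dual_derivation (K := F) he k
  have hmem : ∀ k, P.map (D k) * P⁻¹ ∈ LieG Mot o := by
    intro k
    refine ⟨fun n c hc => kills_of_isDRB (D k) hP (drb n c hc), ?_⟩
    have h1 : P⁻¹ *ᵥ Pi.single o 1 = Pi.single o 1 := by
      conv_lhs => rw [← hPo]
      rw [Matrix.mulVec_mulVec, Matrix.nonsing_inv_mul _ hP, Matrix.one_mulVec]
    rw [← Matrix.mulVec_mulVec, h1, Matrix.mulVec_single_one]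
    funext i
    have h2 := congrFun hPo i
    rw [Matrix.mulVec_single_one] at h2
    have h3 : P i o = (Pi.single o 1 : ι → ℂ) i := h2
    change D k (P i o) = 0
    rw [h3]
    by_cases h : i = o
    · subst h; rw [Pi.single_eq_same]; exact (D k).map_one_eq_zero
    · rw [Pi.single_eq_of_ne h]; exact map_zero _
  have hli : LinearIndependent ℂ fun k => (⟨P.map (D k) * P⁻¹, hmem k⟩ : LieG Mot o) := by
    rw [Fintype.linearIndependent_iff]
    intro a ha m
    have h1 : ∑ k, a k • (P.map (D k) * P⁻¹) = 0 := by
      have := congrArg Subtype.val ha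
      rw [Submodule.coe_sum] at this
      exact this
    have h2 : ∑ k, a k • P.map (D k) = 0 := by
      have h3 := congrArg (fun M => M * P) h1
      simp only [Finset.sum_mul, zero_mul, smul_mul_assoc, mul_assoc,
        Matrix.nonsing_inv_mul _ hP, mul_one] at h3
      exact h3
    have h3 := congrFun (congrFun h2 (e m).1) (e m).2
    rw [Matrix.sum_apply, Finset.sum_eq_single m] at h3
    · have h4 : D m (P (e m).1 (e m).2) = 1 := hD1 m
      simp only [Matrix.smul_apply, Matrix.map_apply, smul_eq_mul, h4, mul_one,
        Matrix.zero_apply] at h3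
      exact h3
    · intro k _ hk
      have h4 : D k (P (e m).1 (e m).2) = 0 := hD2 k m hk.symm
      simp only [Matrix.smul_apply, Matrix.map_apply, smul_eq_mul, h4, mul_zero]
    · intro h; exact absurd (Finset.mem_univ _) h
  have h5 := hli.fintype_card_le_finrank
  rwa [Fintype.card_fin] at h5

end Pool.Agent.D0H78.KG
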