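import Mathlib
import Pool.Agent.D0H93.MT.Hodge

/-!
# Exponentials of skew-Hermitian matrices on tensor powers
-/

set_option autoImplicit false
set_option linter.unusedSectionVars false

open Matrix
open scoped Matrix.Norms.L2Operator

namespace Pool.Agent.D0H78.KG

open Pool.Agent.D0H93.MT

variable {ι : Type} [Fintype ι] [DecidableEq ι]

/-- Diagonalization of a skew-Hermitian matrix and of its exponential. -/
lemma skew_diag {X : Matrix ι ι ℂ} (hX : Xᴴ = -X) :
    ∃ (U : Matrix ι ι ℂ) (θ : ι → ℝ), U * Uᴴ = 1 ∧ Uᴴ * U = 1 ∧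
      X = U * diagonal (fun i => (θ i : ℂ) * Complex.I) * Uᴴ ∧
      NormedSpace.exp X = U * diagonal (fun i => Complex.exp ((θ i : ℂ) * Complex.I)) * Uᴴ ∧
      ∀ i, |θ i| ≤ ‖X‖ := by
  have hA : (-Complex.I • X).IsHermitian := by
    rw [Matrix.IsHermitian, Matrix.conjTranspose_smul, hX]
    simp
  set U : Matrix ι ι ℂ := (hA.eigenvectorUnitary : Matrix ι ι ℂ) with hU
  have h1 : U * Uᴴ = 1 := Matrix.mem_unitaryGroup_iff.1 hA.eigenvectorUnitary.2
  have h2 : Uᴴ * U = 1 := Matrix.mem_unitaryGroup_iff'.1 hA.eigenvectorUnitary.2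
  have h3 := hA.spectral_theorem
  rw [Unitary.conjStarAlgAut_apply] at h3
  generalize hA.eigenvalues = θ at h3
  have h3' : -Complex.I • X = U * diagonal (RCLike.ofReal ∘ θ) * Uᴴ := h3
  have h4 : X = U * diagonal (fun i => (θ i : ℂ) * Complex.I) * Uᴴ := by
    have h5 : X = Complex.I • (-Complex.I • X) := by
      rw [smul_smul]; simp
    have h6 : (diagonal (fun i => (θ i : ℂ) * Complex.I) : Matrix ι ι ℂ) =
        Complex.I • diagonal (RCLike.ofReal ∘ θ) := by
      ext i j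
      by_cases h : i = j
      · subst h; simp [mul_comm]
      · simp [Matrix.diagonal_apply_ne _ h]
    rw [h6, mul_smul_comm, smul_mul_assoc, ← h3']
    exact h5
  refine ⟨U, θ, h1, h2, h4, ?_, fun i => ?_⟩
  · have hinv : U⁻¹ = Uᴴ := Matrix.inv_eq_right_inv h1
    have hu : IsUnit U := ⟨⟨U, Uᴴ, h1, h2⟩, rfl⟩
    conv_lhs => rw [h4, ← hinv]
    rw [Matrix.exp_conj U _ hu, Matrix.exp_diagonal, hinv]
    congr 3
    funext i
    rw [Complex.exp_eq_exp_ℂ]
    exact Pi.coe_exp _ i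
  · have h5 : (diagonal (fun i => (θ i : ℂ) * Complex.I) : Matrix ι ι ℂ) = Uᴴ * X * U := by
      conv_rhs => rw [h4]
      calc _ = (Uᴴ * U) * diagonal (fun i => (θ i : ℂ) * Complex.I) * (Uᴴ * U) := by
            rw [h2, one_mul, mul_one]
        _ = _ := by simp only [mul_assoc]
    have h6 : ‖(diagonal (fun i => (θ i : ℂ) * Complex.I) : Matrix ι ι ℂ)‖ = ‖X‖ := by
      rw [h5]
      have e1 : ‖Uᴴ * X * U‖ = ‖Uᴴ * X‖ := CStarRing.norm_mul_coe_unitary _ hA.eigenvectorUnitary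
      have e2 : ‖Uᴴ * X‖ = ‖X‖ :=
        CStarRing.norm_coe_unitary_mul (star hA.eigenvectorUnitary) X
      rw [e1, e2]
    rw [Matrix.l2_opNorm_diagonal] at h6
    rw [← h6]
    have h7 := norm_le_pi_norm (fun i => (θ i : ℂ) * Complex.I) i
    simpa using h7

lemma sum_prod_exp {n : ℕ} (θ : ι → ℝ) (I : Fin n → ι) :
    ∏ k, Complex.exp ((θ (I k) : ℂ) * Complex.I) =
      Complex.exp (((∑ k, θ (I k) : ℝ) : ℂ) * Complex.I) := by
  rw [← Complex.exp_sum]
  congr 1
  push_cast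
  rw [Finset.sum_mul]

/-- The exponential of a skew-Hermitian matrix which kills `c` fixes `c`. -/
theorem fixes_exp {X : Matrix ι ι ℂ} (hX : Xᴴ = -X) {n : ℕ}
    {c : Matrix (Fin n → ι) (Fin n → ι) ℂ} (h : Kills X c) : Fixes (NormedSpace.exp X) c := by
  obtain ⟨U, θ, h1, h2, h3, h4, -⟩ := skew_diag hX
  rw [h4]
  set c' := tpow n Uᴴ * c * tpow n U with hc'
  have hc : c = tpow n U * c' * tpow n Uᴴ := by
    have e : tpow n U * tpow n Uᴴ = 1 := by rw [← tpow_mul, h1, tpow_one]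
    calc c = (tpow n U * tpow n Uᴴ) * c * (tpow n U * tpow n Uᴴ) := by rw [e, one_mul, mul_one]
      _ = _ := by rw [hc']; simp only [mul_assoc]
  have hk : Kills (diagonal (fun i => (θ i : ℂ) * Complex.I)) c' := by
    refine Kills.of_conj h1 h2 ?_
    rw [← h3, ← hc]
    exact h
  rw [hc]
  refine Fixes.conj h1 h2 ?_
  unfold Kills at hk
  unfold Fixes
  rw [tder_diagonal] at hk
  rw [tpow_diagonal]
  ext I J
  have := congrFun (congrFun hk I) J
  rw [Matrix.diagonal_mul, Matrix.mul_diagonal] at this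
  rw [Matrix.diagonal_mul, Matrix.mul_diagonal, sum_prod_exp, sum_prod_exp]
  by_cases h0 : c' I J = 0
  · rw [h0, mul_zero, zero_mul]
  · have h5 : (∑ k, (θ (I k) : ℂ) * Complex.I) = ∑ k, (θ (J k) : ℂ) * Complex.I :=
      mul_right_cancel₀ h0 (by rw [this, mul_comm])
    rw [← Finset.sum_mul, ← Finset.sum_mul] at h5
    push_cast
    rw [h5, mul_comm]

/-- If the exponential of a small skew-Hermitian matrix fixes `c`, then the matrix kills `c`. -/
theorem kills_of_fixes_exp {X : Matrix ι ι ℂ} (hX : Xᴴ = -X) {n : ℕ} (hn : n * ‖X‖ < Real.pi)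
    {c : Matrix (Fin n → ι) (Fin n → ι) ℂ} (h : Fixes (NormedSpace.exp X) c) : Kills X c := by
  obtain ⟨U, θ, h1, h2, h3, h4, h5⟩ := skew_diag hX
  rw [h4] at h
  set c' := tpow n Uᴴ * c * tpow n U with hc'
  have hc : c = tpow n U * c' * tpow n Uᴴ := by
    have e : tpow n U * tpow n Uᴴ = 1 := by rw [← tpow_mul, h1, tpow_one]
    calc c = (tpow n U * tpow n Uᴴ) * c * (tpow n U * tpow n Uᴴ) := by rw [e, one_mul, mul_one]
      _ = _ := by rw [hc']; simp only [mul_assoc]
  have hk : Fixes (diagonal (fun i => Complex.exp ((θ i : ℂ) * Complex.I))) c' := by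
    refine Fixes.of_conj h1 h2 ?_
    rw [← hc]
    exact h
  rw [hc, h3]
  refine Kills.conj h1 h2 ?_
  unfold Fixes at hk
  unfold Kills
  rw [tpow_diagonal] at hk
  rw [tder_diagonal]
  have hb : ∀ I : Fin n → ι, |∑ k, θ (I k)| < Real.pi := by
    intro I
    refine lt_of_le_of_lt (Finset.abs_sum_le_sum_abs _ _) (lt_of_le_of_lt ?_ hn)
    refine (Finset.sum_le_sum fun k _ => h5 (I k)).trans ?_
    simp
  ext I J
  have := congrFun (congrFun hk I) J
  rw [Matrix.diagonal_mul, Matrix.mul_diagonal, sum_prod_exp, sum_prod_exp] at this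
  rw [Matrix.diagonal_mul, Matrix.mul_diagonal, ← Finset.sum_mul, ← Finset.sum_mul]
  by_cases h0 : c' I J = 0
  · rw [h0, mul_zero, zero_mul]
  · have h6 : Complex.exp (((∑ k, θ (I k) : ℝ) : ℂ) * Complex.I) =
        Complex.exp (((∑ k, θ (J k) : ℝ) : ℂ) * Complex.I) :=
      mul_right_cancel₀ h0 (by rw [this, mul_comm])
    obtain ⟨m, hm⟩ := Complex.exp_eq_exp_iff_exists_int.1 h6
    have h7 : (∑ k, θ (I k)) = (∑ k, θ (J k)) + m * (2 * Real.pi) := by
      have h8 : ((∑ k, θ (I k) : ℝ) : ℂ) = ((∑ k, θ (J k) : ℝ) : ℂ) + m * (2 * Real.pi) := by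
        have h9 : ((∑ k, θ (I k) : ℝ) : ℂ) * Complex.I =
            (((∑ k, θ (J k) : ℝ) : ℂ) + m * (2 * Real.pi)) * Complex.I := by rw [hm]; ring
        exact mul_right_cancel₀ Complex.I_ne_zero h9
      exact_mod_cast h8
    have hm0 : m = 0 := by
      have a1 := abs_lt.1 (hb I)
      have a2 := abs_lt.1 (hb J)
      have hpi := Real.pi_pos
      by_contra hne
      rcases lt_or_gt_of_ne hne with hlt | hgt
      · have : (m : ℝ) ≤ -1 := by exact_mod_cast Int.le_sub_one_of_lt hlt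
        nlinarith
      · have : (1 : ℝ) ≤ m := by exact_mod_cast hgt
        nlinarith
    rw [hm0, Int.cast_zero, zero_mul, add_zero] at h7
    have h8 : (∑ k, (θ (I k) : ℂ)) = ∑ k, (θ (J k) : ℂ) := by exact_mod_cast h7
    rw [h8, mul_comm]

end Pool.Agent.D0H78.KG
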