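import Pool.Agent.D0H78.KG.Diag
import Pool.Agent.D0H93.MT.Two

/-!
# The compact group
-/

set_option autoImplicit false
set_option linter.unusedSectionVars false

open Matrix Module
open scoped Matrix.Norms.L2Operator ComplexOrder

namespace Pool.Agent.D0H78.KG

open Pool.Agent.D0H93.MT

section General

variable {ι : Type} [Fintype ι] [DecidableEq ι] {K : Type} [Field K]

/-- The endomorphisms of the `n`-th tensor power which are killed by all elements of `N`. -/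
def Cm (N : Submodule K (Matrix ι ι K)) (n : ℕ) :
    Submodule K (Matrix (Fin n → ι) (Fin n → ι) K) where
  carrier := {c | ∀ x ∈ N, Kills x c}
  zero_mem' := fun x _ => by unfold Kills; rw [mul_zero, zero_mul]
  add_mem' := fun {a b} ha hb x hx => by
    have h1 := ha x hx
    have h2 := hb x hx
    unfold Kills at *
    rw [mul_add, add_mul, h1, h2]
  smul_mem' := fun r a ha x hx => by
    have h1 := ha x hx
    unfold Kills at *
    rw [mul_smul_comm, smul_mul_assoc, h1]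

lemma mem_Cm {N : Submodule K (Matrix ι ι K)} {n : ℕ} {c : Matrix (Fin n → ι) (Fin n → ι) K} :
    c ∈ Cm N n ↔ ∀ x ∈ N, Kills x c := Iff.rfl

lemma tpow_one' (x : Matrix ι ι K) : tpow 1 x = one' x := by
  ext I J
  simp [tpow, one']

lemma fixes_one' {x z : Matrix ι ι K} : Fixes x (one' z) ↔ x * z = z * x := by
  unfold Fixes
  rw [tpow_one', one'_mul, one'_mul]
  exact ⟨one'_injective, fun h => by rw [h]⟩

end General

/-- A family of complex endomorphisms of the tensor powers which is stable under the adjoint, and a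
vector which spans a line stable under everything which commutes with the family. -/
structure Dat (ι : Type) [Fintype ι] [DecidableEq ι] where
  M : Family ι ℂ
  star : ∀ n c, M n c → M n cᴴ
  v : ι → ℂ
  v0 : v ≠ 0
  hv : ∀ x : Matrix ι ι ℂ, (∀ c, M 1 (one' c) → x * c = c * x) → ∃ a : ℂ, x *ᵥ v = a • v

variable {ι : Type} [Fintype ι] [DecidableEq ι]

lemma exp_mulVec {X : Matrix ι ι ℂ} (hX : Xᴴ = -X) {v : ι → ℂ} {a : ℂ} (h : X *ᵥ v = a • v) :
    NormedSpace.exp X *ᵥ v = Complex.exp a • v := by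
  obtain ⟨U, θ, h1, h2, h3, h4, -⟩ := skew_diag hX
  set w := Uᴴ *ᵥ v with hw
  have hv : v = U *ᵥ w := by rw [hw, Matrix.mulVec_mulVec, h1, Matrix.one_mulVec]
  have h5 : diagonal (fun i => (θ i : ℂ) * Complex.I) *ᵥ w = a • w := by
    have h6 : Uᴴ *ᵥ (X *ᵥ v) = a • w := by rw [h, Matrix.mulVec_smul]
    rw [← h6]
    have h7 : Uᴴ * X = diagonal (fun i => (θ i : ℂ) * Complex.I) * Uᴴ := by
      rw [h3, ← mul_assoc, ← mul_assoc, h2, one_mul]
    rw [hw, Matrix.mulVec_mulVec, Matrix.mulVec_mulVec, h7]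
  rw [h4, ← Matrix.mulVec_mulVec, ← hw, ← Matrix.mulVec_mulVec]
  have h6 : diagonal (fun i => Complex.exp ((θ i : ℂ) * Complex.I)) *ᵥ w = Complex.exp a • w := by
    funext i
    have h7 := congrFun h5 i
    rw [Matrix.mulVec_diagonal, Pi.smul_apply, smul_eq_mul] at h7
    rw [Matrix.mulVec_diagonal, Pi.smul_apply, smul_eq_mul]
    by_cases h0 : w i = 0
    · rw [h0, mul_zero, mul_zero]
    · rw [mul_right_cancel₀ h0 h7]
  rw [h6, Matrix.mulVec_smul, ← hv]

lemma fixes_mul {n : ℕ} {k l : Matrix ι ι ℂ} {c : Matrix (Fin n → ι) (Fin n → ι) ℂ}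
    (hk : Fixes k c) (hl : Fixes l c) : Fixes (k * l) c := by
  unfold Fixes at *
  rw [tpow_mul, mul_assoc, hl, ← mul_assoc, hk, mul_assoc]

lemma fixes_inv {n : ℕ} {k l : Matrix ι ι ℂ} (h1 : k * l = 1) (h2 : l * k = 1)
    {c : Matrix (Fin n → ι) (Fin n → ι) ℂ} (hk : Fixes k c) : Fixes l c := by
  unfold Fixes at *
  have e1 : tpow n l * tpow n k = 1 := by rw [← tpow_mul, h2, tpow_one]
  have e2 : tpow n k * tpow n l = 1 := by rw [← tpow_mul, h1, tpow_one]
  calc tpow n l * c = tpow n l * c * (tpow n k * tpow n l) := by rw [e2, mul_one]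
    _ = tpow n l * (c * tpow n k) * tpow n l := by simp only [mul_assoc]
    _ = tpow n l * (tpow n k * c) * tpow n l := by rw [hk]
    _ = (tpow n l * tpow n k) * c * tpow n l := by simp only [mul_assoc]
    _ = c * tpow n l := by rw [e1, one_mul]

lemma unit_mul {k : Matrix ι ι ℂ} (hk : k ∈ Matrix.unitaryGroup ι ℂ) : k * kᴴ = 1 :=
  Matrix.mem_unitaryGroup_iff.1 hk

lemma unit_mul' {k : Matrix ι ι ℂ} (hk : k ∈ Matrix.unitaryGroup ι ℂ) : kᴴ * k = 1 :=
  Matrix.mem_unitaryGroup_iff'.1 hk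

namespace Dat

variable (D : Dat ι)

/-- The Lie algebra. -/
noncomputable def L : Submodule ℂ (Matrix ι ι ℂ) := ann D.M

lemma mem_L {x : Matrix ι ι ℂ} : x ∈ D.L ↔ ∀ n c, D.M n c → Kills x c := Iff.rfl

lemma tder_star (n : ℕ) (x : Matrix ι ι ℂ) : tder n xᴴ = (tder n x)ᴴ := by
  ext I J
  simp only [tder, Matrix.of_apply, Matrix.conjTranspose_apply, star_sum]
  refine Finset.sum_congr rfl fun k _ => ?_
  have : (∀ l, l ≠ k → I l = J l) ↔ ∀ l, l ≠ k → J l = I l :=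
    ⟨fun h l hl => (h l hl).symm, fun h l hl => (h l hl).symm⟩
  simp only [this]
  split_ifs <;> simp

lemma tpow_star (n : ℕ) (x : Matrix ι ι ℂ) : tpow n xᴴ = (tpow n x)ᴴ := by
  ext I J
  simp [tpow]

lemma star_L {x : Matrix ι ι ℂ} (hx : x ∈ D.L) : xᴴ ∈ D.L := by
  intro n c hc
  have h1 := hx n _ (D.star n c hc)
  unfold Kills at *
  rw [tder_star]
  have h2 := congrArg Matrix.conjTranspose h1
  rw [Matrix.conjTranspose_mul, Matrix.conjTranspose_mul, Matrix.conjTranspose_conjTranspose] at h2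
  exact h2.symm

lemma hvL {x : Matrix ι ι ℂ} (hx : x ∈ D.L) : ∃ a : ℂ, x *ᵥ D.v = a • D.v :=
  D.hv x fun _ hc => kills_one'.1 (hx 1 _ hc)

lemma one_L : (1 : Matrix ι ι ℂ) ∈ D.L := fun _ c _ => Kills.one c

/-- The compact group. -/
def K : Subgroup (Matrix.unitaryGroup ι ℂ) where
  carrier := {k | (∀ n c, D.M n c → Fixes (k : Matrix ι ι ℂ) c) ∧
    (k : Matrix ι ι ℂ) *ᵥ D.v = D.v}
  one_mem' := ⟨fun n c _ => by
    change Fixes (1 : Matrix ι ι ℂ) c
    unfold Fixes; rw [tpow_one, one_mul, mul_one], Matrix.one_mulVec _⟩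
  mul_mem' := fun {a b} ha hb => ⟨fun n c hc => fixes_mul (ha.1 n c hc) (hb.1 n c hc), by
    change ((a : Matrix ι ι ℂ) * (b : Matrix ι ι ℂ)) *ᵥ D.v = D.v
    rw [← Matrix.mulVec_mulVec, hb.2, ha.2]⟩
  inv_mem' := fun {a} ha => by
    have h1 : (a : Matrix ι ι ℂ) * (a : Matrix ι ι ℂ)ᴴ = 1 := unit_mul a.2
    have h2 : (a : Matrix ι ι ℂ)ᴴ * (a : Matrix ι ι ℂ) = 1 := unit_mul' a.2
    refine ⟨fun n c hc => fixes_inv h1 h2 (ha.1 n c hc), ?_⟩
    change (a : Matrix ι ι ℂ)ᴴ *ᵥ D.v = D.v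
    conv_lhs => rw [← ha.2]
    rw [Matrix.mulVec_mulVec, h2, Matrix.one_mulVec]

lemma mem_K {k : Matrix.unitaryGroup ι ℂ} : k ∈ D.K ↔
    (∀ n c, D.M n c → Fixes (k : Matrix ι ι ℂ) c) ∧ (k : Matrix ι ι ℂ) *ᵥ D.v = D.v := Iff.rfl

/-- The matrix of an element of the group. -/
def m (k : D.K) : Matrix ι ι ℂ := ((k : Matrix.unitaryGroup ι ℂ) : Matrix ι ι ℂ)

lemma m_mul (k l : D.K) : D.m (k * l) = D.m k * D.m l := rfl

lemma m_one : D.m 1 = 1 := rfl

lemma m_unit (k : D.K) : D.m k * (D.m k)ᴴ = 1 := unit_mul k.1.2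

lemma m_unit' (k : D.K) : (D.m k)ᴴ * D.m k = 1 := unit_mul' k.1.2

lemma m_inv (k : D.K) : D.m k⁻¹ = (D.m k)ᴴ := rfl

lemma m_cont : Continuous D.m := continuous_subtype_val.comp continuous_subtype_val

lemma m_fix (k : D.K) {n : ℕ} {c : Matrix (Fin n → ι) (Fin n → ι) ℂ} (hc : D.M n c) :
    Fixes (D.m k) c := k.2.1 n c hc

/-- The endomorphisms of the `n`-th tensor power which are fixed by the compact group. -/
def Inv (n : ℕ) : Submodule ℂ (Matrix (Fin n → ι) (Fin n → ι) ℂ) where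
  carrier := {c | ∀ k : D.K, Fixes (D.m k) c}
  zero_mem' := fun x => by unfold Fixes; rw [mul_zero, zero_mul]
  add_mem' := fun {a b} ha hb x => by
    have h1 := ha x
    have h2 := hb x
    unfold Fixes at *
    rw [mul_add, add_mul, h1, h2]
  smul_mem' := fun r a ha x => by
    have h1 := ha x
    unfold Fixes at *
    rw [mul_smul_comm, smul_mul_assoc, h1]

lemma mem_Inv {n : ℕ} {c : Matrix (Fin n → ι) (Fin n → ι) ℂ} :
    c ∈ D.Inv n ↔ ∀ k : D.K, Fixes (D.m k) c := Iff.rfl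

lemma m_v (k : D.K) : D.m k *ᵥ D.v = D.v := k.2.2

lemma norm_mul (k : D.K) (M : Matrix ι ι ℂ) : ‖D.m k * M‖ = ‖M‖ :=
  CStarRing.norm_coe_unitary_mul k.1 M

/-- The elements of the complex Lie algebra which kill the vector. -/
def L0 : Submodule ℂ (Matrix ι ι ℂ) where
  carrier := {x | x ∈ D.L ∧ x *ᵥ D.v = 0}
  zero_mem' := ⟨D.L.zero_mem, Matrix.zero_mulVec _⟩
  add_mem' := fun {a b} ha hb => ⟨D.L.add_mem ha.1 hb.1, by
    rw [Matrix.add_mulVec, ha.2, hb.2, add_zero]⟩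
  smul_mem' := fun c a ha => ⟨D.L.smul_mem c ha.1, by rw [Matrix.smul_mulVec, ha.2, smul_zero]⟩

lemma mem_L0 {x : Matrix ι ι ℂ} : x ∈ D.L0 ↔ x ∈ D.L ∧ x *ᵥ D.v = 0 := Iff.rfl

lemma star_L0 {x : Matrix ι ι ℂ} (hx : x ∈ D.L0) : xᴴ ∈ D.L0 := by
  refine ⟨D.star_L hx.1, ?_⟩
  obtain ⟨a, ha⟩ := D.hvL (D.star_L hx.1)
  have h1 : Star.star D.v ⬝ᵥ (xᴴ *ᵥ D.v) = 0 := by
    rw [Matrix.dotProduct_mulVec, ← Matrix.star_mulVec, hx.2, star_zero, zero_dotProduct]
  rw [ha, dotProduct_smul, smul_eq_mul] at h1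
  rcases mul_eq_zero.1 h1 with h | h
  · rw [ha, h, zero_smul]
  · exact absurd (dotProduct_self_star_eq_zero.1 ((dotProduct_comm _ _).trans h)) D.v0

/-- The real Lie algebra of the compact group. -/
def k : Submodule ℝ (Matrix ι ι ℂ) where
  carrier := {X | X ∈ D.L0 ∧ Xᴴ = -X}
  zero_mem' := ⟨D.L0.zero_mem, by rw [Matrix.conjTranspose_zero, neg_zero]⟩
  add_mem' := fun {a b} ha hb => ⟨D.L0.add_mem ha.1 hb.1, by
    rw [Matrix.conjTranspose_add, ha.2, hb.2]; abel⟩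
  smul_mem' := fun c a ha => ⟨by
    have : c • a = (c : ℂ) • a := by ext i j; simp
    rw [this]
    exact D.L0.smul_mem _ ha.1, by
    rw [Matrix.conjTranspose_smul, ha.2, smul_neg]; simp⟩

lemma mem_k {X : Matrix ι ι ℂ} : X ∈ D.k ↔ (X ∈ D.L ∧ X *ᵥ D.v = 0) ∧ Xᴴ = -X := Iff.rfl

lemma exp_unitary {X : Matrix ι ι ℂ} (hX : Xᴴ = -X) :
    NormedSpace.exp X ∈ Matrix.unitaryGroup ι ℂ := by
  obtain ⟨U, θ, h1, h2, h3, h4, -⟩ := skew_diag hX
  rw [Matrix.mem_unitaryGroup_iff, star_eq_conjTranspose, h4, Matrix.conjTranspose_mul,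
    Matrix.conjTranspose_mul, Matrix.conjTranspose_conjTranspose, Matrix.diagonal_conjTranspose]
  calc _ = U * (diagonal (fun i => Complex.exp ((θ i : ℂ) * Complex.I)) * (Uᴴ * U) *
        diagonal (Star.star fun i => Complex.exp ((θ i : ℂ) * Complex.I))) * Uᴴ := by
        simp only [mul_assoc]
    _ = 1 := by
      rw [h2, mul_one, diagonal_mul_diagonal]
      have : (fun i => Complex.exp ((θ i : ℂ) * Complex.I) *
          (Star.star fun i => Complex.exp ((θ i : ℂ) * Complex.I)) i) = fun _ => (1 : ℂ) := by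
        funext i
        rw [Pi.star_apply]
        change _ * (starRingEnd ℂ) _ = _
        rw [← Complex.exp_conj, ← Complex.exp_add]
        simp
      rw [this]
      have h5 : (diagonal fun _ => (1 : ℂ)) = (1 : Matrix ι ι ℂ) := Matrix.diagonal_one
      rw [h5, mul_one, h1]

/-- The exponential of an element of the Lie algebra. -/
noncomputable def ex {X : Matrix ι ι ℂ} (hX : X ∈ D.k) : D.K :=
  ⟨⟨NormedSpace.exp X, exp_unitary hX.2⟩, fun n c hc => fixes_exp hX.2 (hX.1.1 n c hc), by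
    have h := exp_mulVec hX.2 (v := D.v) (a := 0) (by rw [hX.1.2, zero_smul])
    rw [Complex.exp_zero, one_smul] at h
    exact h⟩

lemma m_ex {X : Matrix ι ι ℂ} (hX : X ∈ D.k) : D.m (D.ex hX) = NormedSpace.exp X := rfl

/-- The invariants of the group are the invariants of the Lie algebra. -/
theorem mem_Cm_of_fixes {n : ℕ} {c : Matrix (Fin n → ι) (Fin n → ι) ℂ}
    (h : ∀ k : D.K, Fixes (D.m k) c) : c ∈ Cm D.L n := by
  have h1 : ∀ X ∈ D.k, Kills X c := by
    intro X hX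
    -- a small multiple
    obtain ⟨t, ht0, ht⟩ : ∃ t : ℝ, 0 < t ∧ n * (t * ‖X‖) < Real.pi := by
      refine ⟨1 / (n * ‖X‖ + 1), by positivity, ?_⟩
      have h2 : (n : ℝ) * (1 / (n * ‖X‖ + 1) * ‖X‖) = (n * ‖X‖) / (n * ‖X‖ + 1) := by ring
      rw [h2]
      have h3 : (n * ‖X‖) / (n * ‖X‖ + 1) ≤ 1 := by
        rw [div_le_one (by positivity)]; linarith
      exact lt_of_le_of_lt h3 (by linarith [Real.pi_gt_three])
    have hX' : t • X ∈ D.k := D.k.smul_mem t hX
    have h2 := kills_of_fixes_exp hX'.2 (n := n) (c := c) (by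
      rw [norm_smul, Real.norm_eq_abs, abs_of_pos ht0]; exact ht) (h (D.ex hX'))
    have h3 : X = ((t⁻¹ : ℝ) : ℂ) • (t • X) := by
      ext i j
      simp only [Matrix.smul_apply, Complex.real_smul, smul_eq_mul]
      rw [← mul_assoc, ← Complex.ofReal_mul, inv_mul_cancel₀ ht0.ne', Complex.ofReal_one, one_mul]
    rw [h3]
    exact h2.smul _
  intro x hx
  obtain ⟨a, ha⟩ := D.hvL hx
  set y := x - a • (1 : Matrix ι ι ℂ) with hy
  have hy0 : y ∈ D.L0 := by
    refine ⟨D.L.sub_mem hx (D.L.smul_mem _ D.one_L), ?_⟩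
    rw [hy, Matrix.sub_mulVec, ha, Matrix.smul_mulVec, Matrix.one_mulVec, sub_self]
  have hys := D.star_L0 hy0
  have h2 : (1 / 2 : ℂ) • (y - yᴴ) ∈ D.k := by
    refine ⟨D.L0.smul_mem _ (D.L0.sub_mem hy0 hys), ?_⟩
    rw [Matrix.conjTranspose_smul, Matrix.conjTranspose_sub, Matrix.conjTranspose_conjTranspose,
      ← smul_neg, neg_sub]
    simp
  have h3 : (-Complex.I / 2 : ℂ) • (y + yᴴ) ∈ D.k := by
    refine ⟨D.L0.smul_mem _ (D.L0.add_mem hy0 hys), ?_⟩
    rw [Matrix.conjTranspose_smul, Matrix.conjTranspose_add, Matrix.conjTranspose_conjTranspose,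
      ← neg_smul, add_comm]
    congr 1
    simp [neg_div]
  have h4 : x = (1 / 2 : ℂ) • (y - yᴴ) + Complex.I • ((-Complex.I / 2 : ℂ) • (y + yᴴ)) +
      a • (1 : Matrix ι ι ℂ) := by
    rw [smul_smul]
    have : Complex.I * (-Complex.I / 2) = 1 / 2 := by
      rw [mul_div_assoc', mul_neg, Complex.I_mul_I]; norm_num
    rw [this, ← smul_add]
    have h5 : y - yᴴ + (y + yᴴ) = (2 : ℂ) • y := by rw [two_smul]; abel
    rw [h5, smul_smul]
    norm_num [hy]
  rw [h4]
  exact ((h1 _ h2).add ((h1 _ h3).smul _)).add ((Kills.one c).smul a)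

/-- Finitely many tensor powers suffice. -/
lemma exists_bound : ∃ N : ℕ, ∀ x : Matrix ι ι ℂ,
    (∀ n ≤ N, ∀ c, D.M n c → Kills x c) → x ∈ D.L := by
  let f : ℕ →o (Submodule ℂ (Matrix ι ι ℂ))ᵒᵈ :=
    { toFun := fun N => OrderDual.toDual
        { carrier := {x | ∀ n ≤ N, ∀ c, D.M n c → Kills x c}
          zero_mem' := fun _ _ c _ => Kills.zero c
          add_mem' := fun ha hb n hn c hc => (ha n hn c hc).add (hb n hn c hc)
          smul_mem' := fun a _ hx n hn c hc => (hx n hn c hc).smul a }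
      monotone' := fun a b hab x hx n hn => hx n (hn.trans hab) }
  obtain ⟨N, hN⟩ := IsArtinian.monotone_stabilizes f
  refine ⟨N, fun x hx n c hc => ?_⟩
  have h1 : x ∈ OrderDual.ofDual (f N) := hx
  rcases le_total n N with h | h
  · exact hx n h c hc
  · rw [hN n h] at h1
    exact h1 n le_rfl c hc

/-- The logarithm. -/
theorem exists_log {R : ℝ} (hR : 0 < R) : ∃ r : ℝ, 0 < r ∧ ∀ g : D.K, ‖D.m g - 1‖ < r →
    ∃ X, ∃ hX : X ∈ D.k, ‖X‖ ≤ R ∧ D.ex hX = g := by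
  obtain ⟨N, hN⟩ := D.exists_bound
  -- the size of the logarithm
  set R' := min R (1 / (N + 1)) with hR'
  have hR'0 : 0 < R' := lt_min hR (by positivity)
  have hR'1 : R' ≤ 1 := (min_le_right _ _).trans (by
    rw [div_le_one (by positivity)]; linarith [Nat.cast_nonneg (α := ℝ) N])
  set r := min 1 (Real.sqrt (2 * (1 - Real.cos R'))) with hr
  have hcos : Real.cos R' < 1 := by
    have := Real.cos_lt_cos_of_nonneg_of_le_pi le_rfl (by linarith [Real.pi_gt_three]) hR'0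
    rwa [Real.cos_zero] at this
  refine ⟨r, lt_min one_pos (Real.sqrt_pos.2 (by linarith)), fun g hg => ?_⟩
  have hg2 : ‖((g.1 : Matrix.unitaryGroup ι ℂ) : Matrix ι ι ℂ) - 1‖ < 2 :=
    lt_of_lt_of_le hg ((min_le_left _ _).trans (by norm_num))
  set A := Unitary.argSelfAdjoint (g.1 : unitary (Matrix ι ι ℂ)) with hA
  have hexp : selfAdjoint.expUnitary A = g.1 := expUnitary_argSelfAdjoint hg2
  have hcosA := Unitary.two_mul_one_sub_cos_norm_argSelfAdjoint hg2
  set X : Matrix ι ι ℂ := Complex.I • (A : Matrix ι ι ℂ) with hX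
  have hXs : Xᴴ = -X := by
    rw [hX, Matrix.conjTranspose_smul]
    have h1 : (A : Matrix ι ι ℂ)ᴴ = A := A.2
    rw [h1, ← neg_smul]
    congr 1
    simp
  have hXn : ‖X‖ = ‖A‖ := by
    rw [hX, norm_smul, Complex.norm_I, one_mul]; rfl
  have hXR : ‖X‖ ≤ R' := by
    rw [hXn]
    by_contra hlt
    push Not at hlt
    have h1 : Real.cos ‖A‖ < Real.cos R' :=
      Real.cos_lt_cos_of_nonneg_of_le_pi hR'0.le (Unitary.norm_argSelfAdjoint_le_pi _) hlt
    have h2 : ‖((g.1 : Matrix.unitaryGroup ι ℂ) : Matrix ι ι ℂ) - 1‖ ^ 2 <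
        2 * (1 - Real.cos R') := by
      have h3 : ‖((g.1 : Matrix.unitaryGroup ι ℂ) : Matrix ι ι ℂ) - 1‖ <
          Real.sqrt (2 * (1 - Real.cos R')) := lt_of_lt_of_le hg (min_le_right _ _)
      calc _ < (Real.sqrt (2 * (1 - Real.cos R'))) ^ 2 :=
            pow_lt_pow_left₀ h3 (norm_nonneg _) two_ne_zero
        _ = _ := Real.sq_sqrt (by linarith)
    have h3 : 2 * (1 - Real.cos ‖A‖) < 2 * (1 - Real.cos R') := lt_of_eq_of_lt hcosA h2
    linarith
  have hexpX : NormedSpace.exp X = D.m g := congrArg Subtype.val hexp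
  have hXL : X ∈ D.L := by
    refine hN X fun n hn c hc => ?_
    refine kills_of_fixes_exp hXs ?_ ?_
    · have h1 : (n : ℝ) * ‖X‖ ≤ N * (1 / (N + 1)) :=
        mul_le_mul (by exact_mod_cast hn) (hXR.trans (min_le_right _ _)) (norm_nonneg _)
          (Nat.cast_nonneg _)
      have h2 : (N : ℝ) * (1 / (N + 1)) ≤ 1 := by
        rw [mul_one_div, div_le_one (by positivity)]; linarith
      linarith [Real.pi_gt_three]
    · rw [hexpX]; exact D.m_fix g hc
  obtain ⟨a, ha⟩ := D.hvL hXL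
  have ha0 : a = 0 := by
    have h1 := exp_mulVec hXs ha
    rw [hexpX, D.m_v] at h1
    have h2 : Complex.exp a = 1 := by
      obtain ⟨i, hi⟩ := Function.ne_iff.1 D.v0
      have h3 := congrFun h1 i
      rw [Pi.smul_apply, smul_eq_mul] at h3
      exact (mul_right_cancel₀ (b := D.v i) hi (by rw [one_mul]; exact h3)).symm
    have h3 : ‖a‖ ≤ ‖X‖ := by
      have h4 := Matrix.l2_opNorm_mulVec X (WithLp.toLp 2 D.v)
      have h5 : (WithLp.toLp 2 (X *ᵥ D.v) : EuclideanSpace ℂ ι) = a • WithLp.toLp 2 D.v := by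
        rw [ha]; rfl
      have h6 : ‖(WithLp.toLp 2 (X *ᵥ D.v) : EuclideanSpace ℂ ι)‖ ≤
          ‖X‖ * ‖(WithLp.toLp 2 D.v : EuclideanSpace ℂ ι)‖ := h4
      rw [h5, norm_smul] at h6
      have h7 : 0 < ‖(WithLp.toLp 2 D.v : EuclideanSpace ℂ ι)‖ := by
        rw [norm_pos_iff]
        intro h8
        exact D.v0 (congrArg WithLp.ofLp h8)
      exact le_of_mul_le_mul_right h6 h7
    obtain ⟨n, hn⟩ := Complex.exp_eq_one_iff.1 h2
    have h4 : ‖a‖ = |(n : ℝ)| * (2 * Real.pi) := by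
      rw [hn]
      simp [abs_of_pos Real.pi_pos]
    have h5 : ‖a‖ ≤ 1 := h3.trans (hXR.trans hR'1)
    have hn0 : n = 0 := by
      by_contra hne
      have h6 : (1 : ℝ) ≤ |(n : ℝ)| := by
        rw [← Int.cast_abs]
        exact_mod_cast Int.one_le_abs hne
      have : 2 * Real.pi ≤ ‖a‖ := by
        rw [h4]
        nlinarith [Real.pi_pos]
      linarith [Real.pi_gt_three]
    rw [hn, hn0]
    simp
  have hXk : X ∈ D.k := ⟨⟨hXL, by rw [ha, ha0, zero_smul]⟩, hXs⟩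
  exact ⟨X, hXk, hXR.trans (min_le_left _ _), Subtype.ext (Subtype.ext hexpX)⟩

end Dat

end Pool.Agent.D0H78.KG
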