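import Pool.Agent.D0H78.KG.Vol

/-!
# The dimension of the space of invariants as an integral
-/

set_option autoImplicit false
set_option linter.unusedSectionVars false

open Matrix Module MeasureTheory
open scoped Matrix.Norms.L2Operator

namespace Pool.Agent.D0H78.KG

open Pool.Agent.D0H93.MT

variable {ι : Type} [Fintype ι] [DecidableEq ι]

lemma trace_tpow {K : Type} [Field K] (n : ℕ) (x : Matrix ι ι K) :
    (tpow n x).trace = x.trace ^ n := by
  simp only [Matrix.trace, Matrix.diag, tpow, Matrix.of_apply]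
  rw [← Fin.prod_const, Finset.prod_univ_sum]
  simp only [Fintype.piFinset_univ]

namespace Dat

variable (D : Dat ι)

/-- The tensor power of an element of the group. -/
def T (n : ℕ) (g : D.K) : Matrix (Fin n → ι) (Fin n → ι) ℂ := tpow n (D.m g)

lemma T_mul (n : ℕ) (g h : D.K) : D.T n (g * h) = D.T n g * D.T n h := tpow_mul n _ _

lemma T_unit (n : ℕ) (g : D.K) : D.T n g * (D.T n g)ᴴ = 1 := by
  rw [T, ← tpow_star, ← tpow_mul, m_unit, tpow_one]

lemma T_unit' (n : ℕ) (g : D.K) : (D.T n g)ᴴ * D.T n g = 1 := by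
  rw [T, ← tpow_star, ← tpow_mul, m_unit', tpow_one]

lemma T_cont (n : ℕ) (I J : Fin n → ι) : Continuous fun g => D.T n g I J := by
  simp only [T, tpow, Matrix.of_apply]
  exact continuous_finsetProd _ fun k _ => D.m_cont.matrix_elem _ _

lemma integrable {f : D.K → ℂ} (hf : Continuous f) : Integrable f D.μ :=
  hf.integrable_of_hasCompactSupport (HasCompactSupport.of_compactSpace f)

/-- The integral of a matrix. -/
noncomputable def intM {m m' : Type} (F : D.K → Matrix m m' ℂ) : Matrix m m' ℂ :=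
  Matrix.of fun i j => ∫ g, F g i j ∂D.μ

lemma mul_intM_mul {m m' : Type} [Fintype m] [Fintype m'] {F : D.K → Matrix m m' ℂ}
    (hF : ∀ i j, Continuous fun g => F g i j) (A : Matrix m m ℂ) (B : Matrix m' m' ℂ) :
    A * D.intM F * B = D.intM fun g => A * F g * B := by
  ext i j
  simp only [Matrix.mul_apply, intM, Matrix.of_apply]
  rw [integral_finsetSum _ fun b _ => ?_]
  · refine Finset.sum_congr rfl fun b _ => ?_
    rw [integral_mul_const, integral_finsetSum _ fun a _ => ?_]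
    · congr 1
      refine Finset.sum_congr rfl fun a _ => ?_
      rw [integral_const_mul]
    · exact D.integrable (continuous_const.mul (hF _ _))
  · exact D.integrable ((continuous_finsetSum _ fun a _ =>
      continuous_const.mul (hF _ _)).mul continuous_const)

/-- The conjugates of `c`. -/
def cj (n : ℕ) (c : Matrix (Fin n → ι) (Fin n → ι) ℂ) (g : D.K) :
    Matrix (Fin n → ι) (Fin n → ι) ℂ := D.T n g * c * (D.T n g)ᴴ

lemma cj_cont (n : ℕ) (c : Matrix (Fin n → ι) (Fin n → ι) ℂ) (I J : Fin n → ι) :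
    Continuous fun g => D.cj n c g I J := by
  simp only [cj, Matrix.mul_apply, Matrix.conjTranspose_apply]
  refine continuous_finsetSum _ fun b _ => Continuous.mul ?_ ?_
  · exact continuous_finsetSum _ fun a _ => (D.T_cont n _ _).mul continuous_const
  · exact (D.T_cont n _ _).star

/-- The average over the group. -/
noncomputable def avg (n : ℕ) : Matrix (Fin n → ι) (Fin n → ι) ℂ →ₗ[ℂ]
    Matrix (Fin n → ι) (Fin n → ι) ℂ where
  toFun c := (D.tot : ℂ)⁻¹ • D.intM (D.cj n c)
  map_add' a b := by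
    ext I J
    simp only [Matrix.smul_apply, Matrix.add_apply, intM, Matrix.of_apply, smul_eq_mul]
    rw [← mul_add, ← integral_add (D.integrable (D.cj_cont n a I J))
      (D.integrable (D.cj_cont n b I J))]
    congr 1
    refine integral_congr_ae (Filter.Eventually.of_forall fun g => ?_)
    simp only [cj, mul_add, add_mul, Matrix.add_apply]
  map_smul' r a := by
    ext I J
    change (D.tot : ℂ)⁻¹ * (∫ g, D.cj n (r • a) g I J ∂D.μ) =
      r * ((D.tot : ℂ)⁻¹ * ∫ g, D.cj n a g I J ∂D.μ)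
    have h1 : ∀ g, D.cj n (r • a) g I J = r * D.cj n a g I J := by
      intro g
      simp only [cj, mul_smul_comm, smul_mul_assoc, Matrix.smul_apply, smul_eq_mul]
    simp only [h1]
    rw [integral_const_mul]
    ring

lemma tot_ne : (D.tot : ℂ) ≠ 0 := by exact_mod_cast D.tot_pos.ne'

lemma avg_fixed (n : ℕ) {c : Matrix (Fin n → ι) (Fin n → ι) ℂ} (hc : c ∈ D.Inv n) :
    D.avg n c = c := by
  ext I J
  change (D.tot : ℂ)⁻¹ * (∫ g, D.cj n c g I J ∂D.μ : ℂ) = c I J
  have h1 : ∀ g, D.cj n c g = c := by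
    intro g
    have h2 : D.T n g * c = c * D.T n g := hc g
    rw [cj, h2, mul_assoc, T_unit, mul_one]
  have h3 : ((D.μ.real Set.univ : ℝ) : ℂ) ≠ 0 := D.tot_ne
  have h4 : ∫ g, D.cj n c g I J ∂D.μ = ((D.μ.real Set.univ : ℝ) : ℂ) * c I J := by
    simp only [h1]
    rw [integral_const, Complex.real_smul]
  rw [h4, ← mul_assoc, tot, inv_mul_cancel₀ h3, one_mul]

lemma avg_mem (n : ℕ) (c : Matrix (Fin n → ι) (Fin n → ι) ℂ) : D.avg n c ∈ D.Inv n := by
  intro h
  have h1 : D.T n h * D.avg n c * (D.T n h)ᴴ = D.avg n c := by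
    change D.T n h * ((D.tot : ℂ)⁻¹ • D.intM (D.cj n c)) * (D.T n h)ᴴ =
      (D.tot : ℂ)⁻¹ • D.intM (D.cj n c)
    rw [mul_smul_comm, smul_mul_assoc, D.mul_intM_mul (D.cj_cont n c)]
    congr 1
    ext I J
    change ∫ g, (D.T n h * D.cj n c g * (D.T n h)ᴴ) I J ∂D.μ = ∫ g, D.cj n c g I J ∂D.μ
    have h2 : ∀ g, (D.T n h * D.cj n c g * (D.T n h)ᴴ) I J = D.cj n c (h * g) I J := by
      intro g
      rw [cj, cj, T_mul, Matrix.conjTranspose_mul]
      simp only [mul_assoc]
    simp only [h2]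
    exact integral_mul_left_eq_self (fun g => D.cj n c g I J) h
  have h2 : D.T n h * D.avg n c = D.avg n c * D.T n h := by
    calc D.T n h * D.avg n c = D.T n h * D.avg n c * ((D.T n h)ᴴ * D.T n h) := by
          rw [T_unit', mul_one]
      _ = (D.T n h * D.avg n c * (D.T n h)ᴴ) * D.T n h := by simp only [mul_assoc]
      _ = _ := by rw [h1]
  exact h2

/-- **The dimension formula.** -/
theorem finrank_eq (n : ℕ) : (finrank ℂ (D.Inv n) : ℝ) * D.tot =
    ∫ g, ‖(D.m g).trace‖ ^ (2 * n) ∂D.μ := by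
  have hp : LinearMap.IsProj (D.Inv n) (D.avg n) := ⟨D.avg_mem n, fun c hc => D.avg_fixed n hc⟩
  have h1 := hp.trace
  rw [LinearMap.trace_eq_matrix_trace ℂ (Matrix.stdBasis ℂ (Fin n → ι) (Fin n → ι))] at h1
  have h2 : (LinearMap.toMatrix (Matrix.stdBasis ℂ (Fin n → ι) (Fin n → ι))
      (Matrix.stdBasis ℂ (Fin n → ι) (Fin n → ι)) (D.avg n)).trace =
      (D.tot : ℂ)⁻¹ * ∫ g, ((‖(D.m g).trace‖ ^ (2 * n) : ℝ) : ℂ) ∂D.μ := by
    rw [Matrix.trace, Fintype.sum_prod_type]
    have h3 : ∀ I J : Fin n → ι, (LinearMap.toMatrix (Matrix.stdBasis ℂ (Fin n → ι) (Fin n → ι))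
        (Matrix.stdBasis ℂ (Fin n → ι) (Fin n → ι)) (D.avg n)).diag (I, J) =
        (D.tot : ℂ)⁻¹ * ∫ g, D.T n g I I * Star.star (D.T n g J J) ∂D.μ := by
      intro I J
      rw [Matrix.diag, LinearMap.toMatrix_apply, Matrix.stdBasis_eq_single]
      have h4 : ∀ M : Matrix (Fin n → ι) (Fin n → ι) ℂ,
          (Matrix.stdBasis ℂ (Fin n → ι) (Fin n → ι)).repr M (I, J) = M I J := fun M => rfl
      rw [h4]
      change (D.tot : ℂ)⁻¹ * ∫ g, D.cj n (Matrix.single I J 1) g I J ∂D.μ = _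
      congr 1
      refine integral_congr_ae (Filter.Eventually.of_forall fun g => ?_)
      simp only [cj]
      rw [Matrix.mul_apply, Finset.sum_eq_single J]
      · rw [Matrix.mul_single_apply_same, mul_one, Matrix.conjTranspose_apply]
      · intro b _ hb
        rw [Matrix.mul_single_apply_of_ne _ _ _ _ _ hb, zero_mul]
      · intro h; exact absurd (Finset.mem_univ _) h
    simp only [h3]
    simp only [← Finset.mul_sum]
    congr 1
    have hi : ∀ I J : Fin n → ι, Integrable (fun g => D.T n g I I * Star.star (D.T n g J J)) D.μ :=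
      fun I J => D.integrable ((D.T_cont n I I).mul (D.T_cont n J J).star)
    have h5 : ∀ I : Fin n → ι, ∑ J, ∫ g, D.T n g I I * Star.star (D.T n g J J) ∂D.μ =
        ∫ g, ∑ J, D.T n g I I * Star.star (D.T n g J J) ∂D.μ := fun I =>
      (integral_finsetSum _ fun J _ => hi I J).symm
    simp only [h5]
    rw [← integral_finsetSum _ fun I _ => integrable_finsetSum _ fun J _ => hi I J]
    refine integral_congr_ae (Filter.Eventually.of_forall fun g => ?_)
    simp only [← Finset.mul_sum]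
    rw [← Finset.sum_mul, ← star_sum]
    have h6 : ∑ I, D.T n g I I = (D.m g).trace ^ n := trace_tpow n (D.m g)
    rw [h6, Complex.star_def, map_pow, ← mul_pow, Complex.mul_conj, Complex.normSq_eq_norm_sq,
      ← Complex.ofReal_pow, ← pow_mul]
  rw [h2] at h1
  have h7 : ∫ g, ((‖(D.m g).trace‖ ^ (2 * n) : ℝ) : ℂ) ∂D.μ =
      ((∫ g, ‖(D.m g).trace‖ ^ (2 * n) ∂D.μ : ℝ) : ℂ) := integral_ofReal
  rw [h7] at h1
  have h8 : ((finrank ℂ (D.Inv n) : ℝ) : ℂ) * (D.tot : ℂ) =
      ((∫ g, ‖(D.m g).trace‖ ^ (2 * n) ∂D.μ : ℝ) : ℂ) := by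
    rw [Complex.ofReal_natCast, ← h1, mul_comm, ← mul_assoc, mul_inv_cancel₀ D.tot_ne, one_mul]
  exact_mod_cast h8

end Dat

end Pool.Agent.D0H78.KG
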