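import Mathlib

/-!
# The number of linearly independent monomials of degree `n` in finitely many elements of a field
-/

set_option autoImplicit false
set_option linter.unusedSectionVars false

open Module

namespace Pool.Agent.D0H78.KG.Hil

variable {K L J : Type} [Field K] [Field L] [Algebra K L]

lemma mul_l {A B C : Submodule K L} (h : A ≤ B) : A * C ≤ B * C :=
  Submodule.mul_le.2 fun _ ha _ hc => Submodule.mul_mem_mul (h ha) hc

lemma mul_r {A B C : Submodule K L} (h : A ≤ B) : C * A ≤ C * B :=
  Submodule.mul_le.2 fun _ hc _ ha => Submodule.mul_mem_mul hc (h ha)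

/-- The products of `n` of the numbers. -/
def prods (x : J → L) (n : ℕ) : Set L := Set.range fun j : Fin n → J => ∏ k, x (j k)

lemma span_prods (x : J → L) (n : ℕ) :
    Submodule.span K (prods x n) = (Submodule.span K (Set.range x)) ^ n := by
  induction n with
  | zero =>
    have : prods x 0 = {1} := by
      ext a
      simp [prods]
    rw [this, pow_zero, Submodule.one_eq_span]
  | succ n ih =>
    rw [pow_succ, ← ih, Submodule.span_mul_span]
    congr 1
    ext a
    rw [Set.mem_mul]
    constructor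
    · rintro ⟨j, rfl⟩
      refine ⟨_, ⟨fun k => j k.castSucc, rfl⟩, _, ⟨j (Fin.last n), rfl⟩, ?_⟩
      change _ = ∏ k, x (j k)
      rw [Fin.prod_univ_castSucc]
    · rintro ⟨_, ⟨j, rfl⟩, _, ⟨l, rfl⟩, rfl⟩
      refine ⟨Fin.snoc j l, ?_⟩
      change ∏ k, x ((Fin.snoc j l : Fin (n + 1) → J) k) = _
      rw [Fin.prod_univ_castSucc]
      simp only [Fin.snoc_castSucc, Fin.snoc_last]

lemma pow_le_of_one {V : Submodule K L} (h1 : (1 : L) ∈ V) {m n : ℕ} (h : m ≤ n) :
    V ^ m ≤ V ^ n := by
  obtain ⟨k, rfl⟩ := Nat.exists_eq_add_of_le h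
  clear h
  induction k with
  | zero => exact le_rfl
  | succ k ih =>
    refine ih.trans ?_
    rw [← add_assoc, pow_succ]
    intro a ha
    have := Submodule.mul_mem_mul ha h1
    rwa [mul_one] at this

lemma prod_mem_pow {V : Submodule K L} {τ : Type} (s : Finset τ) (y : τ → L) (hy : ∀ i, y i ∈ V)
    (a : τ → ℕ) : ∏ i ∈ s, y i ^ a i ∈ V ^ (∑ i ∈ s, a i) := by
  classical
  induction s using Finset.induction_on with
  | empty =>
    rw [Finset.prod_empty, Finset.sum_empty, pow_zero]
    exact Submodule.one_le.1 le_rfl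
  | insert i s hi ih =>
    rw [Finset.prod_insert hi, Finset.sum_insert hi, pow_add]
    exact Submodule.mul_mem_mul (Submodule.pow_mem_pow V (hy i) _) ih

/-- The monomials with exponents at most `m`. -/
def mon {t : ℕ} (y : Fin t → L) (m : ℕ) (a : Fin t → Fin (m + 1)) : L := ∏ i, y i ^ (a i : ℕ)

lemma mon_linearIndependent {t : ℕ} {y : Fin t → L} (hy : AlgebraicIndependent K y) (m : ℕ) :
    LinearIndependent K (mon y m) := by
  have h1 : LinearIndependent K fun s : Fin t →₀ ℕ =>
      MvPolynomial.aeval (R := K) y (MvPolynomial.monomial s 1) := by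
    have h2 := (MvPolynomial.basisMonomials (Fin t) K).linearIndependent
    have h3 : LinearMap.ker (MvPolynomial.aeval (R := K) y).toLinearMap = ⊥ :=
      LinearMap.ker_eq_bot.2 hy
    have h4 := h2.map' _ h3
    have h5 : (fun s : Fin t →₀ ℕ => MvPolynomial.aeval (R := K) y (MvPolynomial.monomial s 1)) =
        (MvPolynomial.aeval (R := K) y).toLinearMap ∘ MvPolynomial.basisMonomials (Fin t) K := by
      funext s
      simp
    rw [h5]
    exact h4
  have h2 : Function.Injective fun a : Fin t → Fin (m + 1) =>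
      (Finsupp.equivFunOnFinite.symm fun i => (a i : ℕ) : Fin t →₀ ℕ) := by
    intro a b hab
    have h3 := Finsupp.equivFunOnFinite.symm.injective hab
    funext i
    exact Fin.ext (congrFun h3 i)
  have h3 := h1.comp _ h2
  convert h3 using 1
  funext a
  simp only [Function.comp, mon, MvPolynomial.aeval_monomial, map_one, one_mul]
  rw [Finsupp.prod_fintype _ _ (fun i => pow_zero _)]
  rfl

/-- The lower bound. -/
theorem lower {t : ℕ} {y : Fin t → L} (hy : AlgebraicIndependent K y) {V : Submodule K L}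
    (h1 : (1 : L) ∈ V) (hV : ∀ i, y i ∈ V) (hfg : V.FG) {n m : ℕ} (h : t * m ≤ n) :
    (m + 1) ^ t ≤ finrank K (V ^ n : Submodule K L) := by
  have hfin : FiniteDimensional K (V ^ n : Submodule K L) :=
    Module.Finite.iff_fg.2 (hfg.pow n)
  have hmem : ∀ a, mon y m a ∈ V ^ n := by
    intro a
    refine pow_le_of_one h1 (m := ∑ i, (a i : ℕ)) ?_ (prod_mem_pow Finset.univ y hV _)
    refine le_trans ?_ h
    calc ∑ i, (a i : ℕ) ≤ ∑ _i : Fin t, m :=
          Finset.sum_le_sum fun i _ => Nat.lt_succ_iff.1 (a i).2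
      _ = t * m := by simp
  have h2 : LinearIndependent K fun a => (⟨mon y m a, hmem a⟩ : (V ^ n : Submodule K L)) := by
    refine LinearIndependent.of_comp (V ^ n).subtype ?_
    exact mon_linearIndependent hy m
  have h3 := h2.fintype_card_le_finrank
  rw [Fintype.card_fun, Fintype.card_fin, Fintype.card_fin] at h3
  exact h3

/-- The span of the monomials with exponents at most `m`. -/
def W (K : Type) {L : Type} [Field K] [Field L] [Algebra K L] {t : ℕ} (y : Fin t → L) (m : ℕ) :
    Submodule K L := Submodule.span K (Set.range (mon y m))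

lemma W_mono {t : ℕ} (y : Fin t → L) {m m' : ℕ} (h : m ≤ m') : W K y m ≤ W K y m' := by
  refine Submodule.span_mono ?_
  rintro _ ⟨a, rfl⟩
  exact ⟨fun i => Fin.castLE (by omega) (a i), rfl⟩

lemma W_mul {t : ℕ} (y : Fin t → L) (m m' : ℕ) : W K y m * W K y m' ≤ W K y (m + m') := by
  rw [W, W, Submodule.span_mul_span]
  refine Submodule.span_mono ?_
  rintro _ ⟨_, ⟨a, rfl⟩, _, ⟨b, rfl⟩, rfl⟩
  refine ⟨fun i => ⟨(a i : ℕ) + (b i : ℕ), by have := (a i).2; have := (b i).2; omega⟩, ?_⟩
  simp only [mon, ← Finset.prod_mul_distrib, ← pow_add]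

lemma W_one {t : ℕ} (y : Fin t → L) (m : ℕ) : (1 : L) ∈ W K y m :=
  Submodule.subset_span ⟨fun _ => 0, by simp [mon]⟩

lemma W_pow {t : ℕ} (y : Fin t → L) (m n : ℕ) : W K y m ^ n ≤ W K y (m * n) := by
  induction n with
  | zero =>
    rw [pow_zero, Submodule.one_le]
    exact W_one y _
  | succ n ih =>
    rw [pow_succ, mul_add, mul_one]
    exact (mul_l ih).trans (W_mul y _ _)

lemma mem_W {t : ℕ} (y : Fin t → L) {a : L} (ha : a ∈ Algebra.adjoin K (Set.range y)) :
    ∃ m, a ∈ W K y m := by
  classical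
  induction ha using Algebra.adjoin_induction with
  | mem a ha =>
    obtain ⟨i, rfl⟩ := ha
    refine ⟨1, Submodule.subset_span ⟨fun j => if j = i then 1 else 0, ?_⟩⟩
    rw [mon, Finset.prod_eq_single i]
    · simp
    · intro j _ hj
      simp [hj]
    · intro h; exact absurd (Finset.mem_univ _) h
  | algebraMap r =>
    refine ⟨0, ?_⟩
    rw [Algebra.algebraMap_eq_smul_one]
    exact Submodule.smul_mem _ _ (W_one y 0)
  | add a b _ _ ha hb =>
    obtain ⟨m, hm⟩ := ha
    obtain ⟨m', hm'⟩ := hb
    exact ⟨max m m', Submodule.add_mem _ (W_mono y (le_max_left _ _) hm)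
      (W_mono y (le_max_right _ _) hm')⟩
  | mul a b _ _ ha hb =>
    obtain ⟨m, hm⟩ := ha
    obtain ⟨m', hm'⟩ := hb
    exact ⟨m + m', W_mul y m m' (Submodule.mul_mem_mul hm hm')⟩

lemma finrank_W_mul {t : ℕ} (y : Fin t → L) (m : ℕ) (S : Finset L) :
    finrank K (W K y m * Submodule.span K (S : Set L) : Submodule K L) ≤
      (m + 1) ^ t * S.card := by
  classical
  let f : (Fin t → Fin (m + 1)) × S → L := fun p => mon y m p.1 * (p.2 : L)
  have h1 : (W K y m * Submodule.span K (S : Set L) : Submodule K L) =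
      Submodule.span K (Set.range f) := by
    rw [W, Submodule.span_mul_span]
    congr 1
    ext a
    rw [Set.mem_mul]
    constructor
    · rintro ⟨_, ⟨α, rfl⟩, s, hs, rfl⟩
      exact ⟨(α, ⟨s, hs⟩), rfl⟩
    · rintro ⟨⟨α, s⟩, rfl⟩
      exact ⟨_, ⟨α, rfl⟩, s, s.2, rfl⟩
  rw [h1]
  refine (finrank_range_le_card f).trans_eq ?_
  rw [Fintype.card_prod, Fintype.card_fun, Fintype.card_fin, Fintype.card_fin, Fintype.card_coe]

variable [Fintype J]

/-- The upper bound. -/
theorem upper {t : ℕ} {y : Fin t → L} (x : J → L)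
    (hx : ∀ j, IsAlgebraic (Algebra.adjoin K (Set.range y)) (x j)) :
    ∃ C : ℕ, ∀ n : ℕ, 1 ≤ n →
      finrank K ((Submodule.span K (Set.range x)) ^ n : Submodule K L) ≤ C * n ^ t := by
  classical
  set A := Algebra.adjoin K (Set.range y) with hA
  -- a common denominator
  have h1 : ∀ j, ∃ a : A, a ≠ 0 ∧ IsIntegral A (a • x j) := fun j => (hx j).exists_integral_multiple
  choose a ha hint using h1
  set b : A := ∏ j, a j with hb
  have hb0 : b ≠ 0 := Finset.prod_ne_zero_iff.2 fun j _ => ha j
  have hbx : ∀ j, IsIntegral A (b • x j) := by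
    intro j
    have : b • x j = (∏ l ∈ Finset.univ.erase j, a l) • (a j • x j) := by
      rw [smul_smul, Finset.prod_erase_mul _ _ (Finset.mem_univ j)]
    rw [this]
    exact (hint j).smul _
  obtain ⟨S, hS⟩ := fg_adjoin_of_finite (R := A) (s := Set.range fun j => b • x j)
    (Set.finite_range _) (by rintro _ ⟨j, rfl⟩; exact hbx j)
  set Z := Submodule.span K (S : Set L) with hZ
  -- elements of the span over `A`
  have h2 : ∀ w ∈ Submodule.span A (S : Set L), ∃ m, w ∈ W K y m * Z := by
    intro w hw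
    induction hw using Submodule.span_induction with
    | mem w hw =>
      refine ⟨0, ?_⟩
      have := Submodule.mul_mem_mul (W_one (K := K) y 0) (Submodule.subset_span (R := K) hw)
      rwa [one_mul] at this
    | zero => exact ⟨0, Submodule.zero_mem _⟩
    | add u v _ _ hu hv =>
      obtain ⟨m, hm⟩ := hu
      obtain ⟨m', hm'⟩ := hv
      exact ⟨max m m', Submodule.add_mem _
        (mul_l (W_mono y (le_max_left _ _)) hm)
        (mul_l (W_mono y (le_max_right _ _)) hm')⟩
    | smul c u _ hu =>
      obtain ⟨m, hm⟩ := hu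
      obtain ⟨m', hm'⟩ := mem_W (K := K) y c.2
      refine ⟨m' + m, ?_⟩
      have h3 := Submodule.mul_mem_mul hm' hm
      rw [← mul_assoc] at h3
      have h4 : c • u = (c : L) * u := rfl
      rw [h4]
      exact mul_l (W_mul y m' m) h3
  have hmul : ∀ j, ∀ z ∈ S, ∃ m, (b • x j) * z ∈ W K y m * Z := by
    intro j z hz
    refine h2 _ ?_
    rw [hS]
    exact Subalgebra.mul_mem _ (Algebra.subset_adjoin ⟨j, rfl⟩) (by
      have : z ∈ Submodule.span A (S : Set L) := Submodule.subset_span hz
      rw [hS] at this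
      exact this)
  have hone : ∃ m, (1 : L) ∈ W K y m * Z := by
    refine h2 _ ?_
    rw [hS]
    exact Subalgebra.one_mem _
  obtain ⟨m₀, hm₀⟩ := hone
  choose! md hmd using hmul
  set d := m₀ + ∑ j, ∑ z ∈ S, md j z with hd
  have hd1 : (1 : L) ∈ W K y d * Z :=
    mul_l (W_mono y (Nat.le_add_right _ _)) hm₀
  have hd2 : ∀ j, ∀ z ∈ S, (b • x j) * z ∈ W K y d * Z := by
    intro j z hz
    refine mul_l (W_mono y ?_) (hmd j z hz)
    have e1 : md j z ≤ ∑ z ∈ S, md j z := Finset.single_le_sum (fun _ _ => Nat.zero_le _) hz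
    have e2 : ∑ z ∈ S, md j z ≤ ∑ j, ∑ z ∈ S, md j z :=
      Finset.single_le_sum (f := fun j => ∑ z ∈ S, md j z) (fun _ _ => Nat.zero_le _)
        (Finset.mem_univ j)
    omega
  set V := Submodule.span K (Set.range x) with hV
  set U := Submodule.span K (Set.range fun j => b • x j) with hU
  have hUZ : U * Z ≤ W K y d * Z := by
    rw [hU, hZ, Submodule.span_mul_span]
    refine Submodule.span_le.2 ?_
    rintro _ ⟨_, ⟨j, rfl⟩, z, hz, rfl⟩
    exact hd2 j z hz
  have hpow : ∀ n, U ^ n * Z ≤ W K y d ^ n * Z := by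
    intro n
    induction n with
    | zero => rw [pow_zero, pow_zero]
    | succ n ih =>
      calc U ^ (n + 1) * Z = U ^ n * (U * Z) := by rw [pow_succ, mul_assoc]
        _ ≤ U ^ n * (W K y d * Z) := mul_r hUZ
        _ = W K y d * (U ^ n * Z) := by rw [← mul_assoc, mul_comm (U ^ n), mul_assoc]
        _ ≤ W K y d * (W K y d ^ n * Z) := mul_r ih
        _ = _ := by rw [← mul_assoc, pow_succ']
  have hUn : ∀ n, U ^ n ≤ W K y (d * (n + 1)) * Z := by
    intro n
    calc U ^ n ≤ U ^ n * (W K y d * Z) := by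
          intro u hu
          have := Submodule.mul_mem_mul hu hd1
          rwa [mul_one] at this
      _ = W K y d * (U ^ n * Z) := by rw [← mul_assoc, mul_comm (U ^ n), mul_assoc]
      _ ≤ W K y d * (W K y d ^ n * Z) := mul_r (hpow n)
      _ = W K y d ^ (n + 1) * Z := by rw [← mul_assoc, pow_succ']
      _ ≤ _ := mul_l (W_pow y d (n + 1))
  have hfgZ : ∀ n, FiniteDimensional K (W K y n * Z : Submodule K L) := by
    intro n
    refine Module.Finite.iff_fg.2 (Submodule.FG.mul ?_ ?_)
    · exact Submodule.fg_span (Set.finite_range _)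
    · exact Submodule.fg_span S.finite_toSet
  have hbL : (b : L) ≠ 0 := fun h => hb0 (Subtype.ext h)
  have hVU : ∀ n, ∀ v ∈ V ^ n, (b : L) ^ n * v ∈ U ^ n := by
    intro n
    induction n with
    | zero => intro v hv; rw [pow_zero] at hv ⊢; rwa [pow_zero, one_mul]
    | succ n ih =>
      intro v hv
      rw [pow_succ] at hv
      induction hv using Submodule.mul_induction_on' with
      | mem_mul_mem u hu w hw =>
        have h3 : (b : L) * w ∈ U := by
          clear hpow hUn hfgZ ih
          induction hw using Submodule.span_induction with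
          | mem w hw =>
            obtain ⟨j, rfl⟩ := hw
            exact Submodule.subset_span ⟨j, rfl⟩
          | zero => rw [mul_zero]; exact Submodule.zero_mem _
          | add p q _ _ hp hq => rw [mul_add]; exact Submodule.add_mem _ hp hq
          | smul c p _ hp => rw [mul_smul_comm]; exact Submodule.smul_mem _ _ hp
        have h4 : (b : L) ^ (n + 1) * (u * w) = ((b : L) ^ n * u) * ((b : L) * w) := by ring
        rw [h4, pow_succ]
        exact Submodule.mul_mem_mul (ih u hu) h3
      | add p _ q _ hp hq => rw [mul_add]; exact Submodule.add_mem _ hp hq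
  refine ⟨(2 * d + 1) ^ t * S.card, fun n hn => ?_⟩
  have := hfgZ (d * (n + 1))
  let f : (V ^ n : Submodule K L) →ₗ[K] (W K y (d * (n + 1)) * Z : Submodule K L) :=
    { toFun := fun v => ⟨(b : L) ^ n * v, hUn n (hVU n v v.2)⟩
      map_add' := fun v w => Subtype.ext (mul_add _ _ _)
      map_smul' := fun c v => Subtype.ext (mul_smul_comm _ _ _) }
  have hf : Function.Injective f := by
    intro v w hvw
    have h3 : (b : L) ^ n * (v : L) = (b : L) ^ n * (w : L) := congrArg Subtype.val hvw
    exact Subtype.ext (mul_left_cancel₀ (pow_ne_zero n hbL) h3)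
  have h5 := LinearMap.finrank_le_finrank_of_injective hf
  refine h5.trans ((finrank_W_mul y _ S).trans ?_)
  have h6 : d * (n + 1) + 1 ≤ (2 * d + 1) * n := by nlinarith
  calc (d * (n + 1) + 1) ^ t * S.card ≤ ((2 * d + 1) * n) ^ t * S.card :=
        Nat.mul_le_mul_right _ (Nat.pow_le_pow_left h6 t)
    _ = _ := by rw [mul_pow]; ring

end Pool.Agent.D0H78.KG.Hil
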