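import Pool.Agent.D0H78.KG.Asy

/-!
# The invariants of the compact group are the invariants of the whole group
-/

set_option autoImplicit false
set_option linter.unusedSectionVars false

open Matrix Module
open scoped Matrix.Norms.L2Operator ComplexOrder

namespace Pool.Agent.D0H78.KG

open Pool.Agent.D0H93.MT

variable {ι : Type} [Fintype ι] [DecidableEq ι]

lemma pos_diag {g g' : Matrix ι ι ℂ} (hg : g' * g = 1) :
    ∃ (U : Matrix ι ι ℂ) (lam : ι → ℝ), U * Uᴴ = 1 ∧ Uᴴ * U = 1 ∧ (∀ i, 0 < lam i) ∧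
      gᴴ * g = U * diagonal (fun i => (lam i : ℂ)) * Uᴴ := by
  have hinj : Function.Injective g.mulVec := by
    intro a b hab
    have h1 := congrArg (fun w => g' *ᵥ w) hab
    simp only [Matrix.mulVec_mulVec] at h1
    rw [hg, Matrix.one_mulVec, Matrix.one_mulVec] at h1
    exact h1
  have hp : (gᴴ * g).PosDef := Matrix.PosDef.conjTranspose_mul_self g hinj
  refine ⟨hp.1.eigenvectorUnitary, hp.1.eigenvalues,
    Matrix.mem_unitaryGroup_iff.1 hp.1.eigenvectorUnitary.2,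
    Matrix.mem_unitaryGroup_iff'.1 hp.1.eigenvectorUnitary.2, hp.eigenvalues_pos, ?_⟩
  have h3 := hp.1.spectral_theorem
  rw [Unitary.conjStarAlgAut_apply] at h3
  exact h3

lemma prod_ofReal_exp {n : ℕ} (θ : ι → ℝ) (s : ℝ) (I : Fin n → ι) :
    ∏ k, ((Real.exp (s * θ (I k)) : ℝ) : ℂ) = ((Real.exp (s * ∑ k, θ (I k)) : ℝ) : ℂ) := by
  rw [← Complex.ofReal_prod, ← Real.exp_sum, Finset.mul_sum]

/-- Real powers of a positive matrix. -/
lemma fixes_pow {U : Matrix ι ι ℂ} (h1 : U * Uᴴ = 1) (h2 : Uᴴ * U = 1) (θ : ι → ℝ) {n : ℕ}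
    {c : Matrix (Fin n → ι) (Fin n → ι) ℂ}
    (h : Kills (U * diagonal (fun i => (θ i : ℂ)) * Uᴴ) c) (s : ℝ) :
    Fixes (U * diagonal (fun i => ((Real.exp (s * θ i) : ℝ) : ℂ)) * Uᴴ) c := by
  set c' := tpow n Uᴴ * c * tpow n U with hc'
  have hc : c = tpow n U * c' * tpow n Uᴴ := by
    have e : tpow n U * tpow n Uᴴ = 1 := by rw [← tpow_mul, h1, tpow_one]
    calc c = (tpow n U * tpow n Uᴴ) * c * (tpow n U * tpow n Uᴴ) := by rw [e, one_mul, mul_one]
      _ = _ := by rw [hc']; simp only [mul_assoc]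
  have hk : Kills (diagonal (fun i => (θ i : ℂ))) c' := by
    refine Kills.of_conj h1 h2 ?_
    rw [← hc]
    exact h
  rw [hc]
  refine Fixes.conj h1 h2 ?_
  unfold Kills at hk
  unfold Fixes
  rw [tder_diagonal] at hk
  rw [tpow_diagonal]
  ext I J
  have := congrFun (congrFun hk I) J
  rw [Matrix.diagonal_mul, Matrix.mul_diagonal] at this
  rw [Matrix.diagonal_mul, Matrix.mul_diagonal, prod_ofReal_exp, prod_ofReal_exp]
  by_cases h0 : c' I J = 0
  · rw [h0, mul_zero, zero_mul]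
  · have h5 : (∑ k, (θ (I k) : ℂ)) = ∑ k, (θ (J k) : ℂ) :=
      mul_right_cancel₀ h0 (by rw [this, mul_comm])
    have h6 : (∑ k, θ (I k)) = ∑ k, θ (J k) := by exact_mod_cast h5
    rw [h6, mul_comm]

/-- The logarithm of a positive matrix. -/
lemma kills_log {U : Matrix ι ι ℂ} (h1 : U * Uᴴ = 1) (h2 : Uᴴ * U = 1) (θ : ι → ℝ) {n : ℕ}
    {c : Matrix (Fin n → ι) (Fin n → ι) ℂ}
    (h : Fixes (U * diagonal (fun i => ((Real.exp (θ i) : ℝ) : ℂ)) * Uᴴ) c) :
    Kills (U * diagonal (fun i => (θ i : ℂ)) * Uᴴ) c := by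
  set c' := tpow n Uᴴ * c * tpow n U with hc'
  have hc : c = tpow n U * c' * tpow n Uᴴ := by
    have e : tpow n U * tpow n Uᴴ = 1 := by rw [← tpow_mul, h1, tpow_one]
    calc c = (tpow n U * tpow n Uᴴ) * c * (tpow n U * tpow n Uᴴ) := by rw [e, one_mul, mul_one]
      _ = _ := by rw [hc']; simp only [mul_assoc]
  have hk : Fixes (diagonal (fun i => ((Real.exp (θ i) : ℝ) : ℂ))) c' := by
    refine Fixes.of_conj h1 h2 ?_
    rw [← hc]
    exact h
  rw [hc]
  refine Kills.conj h1 h2 ?_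
  unfold Fixes at hk
  unfold Kills
  rw [tpow_diagonal] at hk
  rw [tder_diagonal]
  ext I J
  have := congrFun (congrFun hk I) J
  have e1 := prod_ofReal_exp θ 1 I
  have e2 := prod_ofReal_exp θ 1 J
  simp only [one_mul] at e1 e2
  rw [Matrix.diagonal_mul, Matrix.mul_diagonal, e1, e2] at this
  rw [Matrix.diagonal_mul, Matrix.mul_diagonal]
  by_cases h0 : c' I J = 0
  · rw [h0, mul_zero, zero_mul]
  · have h6 : ((Real.exp (∑ k, θ (I k)) : ℝ) : ℂ) = ((Real.exp (∑ k, θ (J k)) : ℝ) : ℂ) :=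
      mul_right_cancel₀ h0 (by rw [this, mul_comm])
    have h7 : (∑ k, θ (I k)) = ∑ k, θ (J k) := Real.exp_injective (by exact_mod_cast h6)
    have h8 : (∑ k, (θ (I k) : ℂ)) = ∑ k, (θ (J k) : ℂ) := by exact_mod_cast h7
    rw [h8, mul_comm]

namespace Dat

variable (D : Dat ι)

lemma one'_star (c : Matrix ι ι ℂ) : (one' c)ᴴ = one' cᴴ := by
  ext I J
  simp [one']

/-- The adjoint of an element which fixes the family. -/
lemma fixes_star {g : Matrix ι ι ℂ} (hM : ∀ n c, D.M n c → Fixes g c) :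
    ∀ n c, D.M n c → Fixes gᴴ c := by
  intro n c hc
  have h1 := hM n _ (D.star n c hc)
  unfold Fixes at *
  rw [tpow_star]
  have h2 := congrArg Matrix.conjTranspose h1
  rw [Matrix.conjTranspose_mul, Matrix.conjTranspose_mul, Matrix.conjTranspose_conjTranspose] at h2
  exact h2.symm

lemma star_v {g : Matrix ι ι ℂ} (hM : ∀ n c, D.M n c → Fixes g c) (hv : g *ᵥ D.v = D.v) :
    gᴴ *ᵥ D.v = D.v := by
  obtain ⟨a, ha⟩ := D.hv gᴴ fun c hc => fixes_one'.1 (D.fixes_star hM 1 _ hc)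
  have h1 : Star.star D.v ⬝ᵥ (gᴴ *ᵥ D.v) = Star.star D.v ⬝ᵥ D.v := by
    rw [Matrix.dotProduct_mulVec, ← Matrix.star_mulVec, hv]
  have h0 : Star.star D.v ⬝ᵥ D.v ≠ 0 := fun h =>
    D.v0 (dotProduct_self_star_eq_zero.1 ((dotProduct_comm _ _).trans h))
  rw [ha, dotProduct_smul, smul_eq_mul] at h1
  have h2 : a = 1 := mul_right_cancel₀ h0 (by rw [h1, one_mul])
  rw [ha, h2, one_smul]

/-- **The invariants of the compact group are fixed by the whole group.** -/
theorem fixes_of_inv {g g' : Matrix ι ι ℂ} (hg : g' * g = 1)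
    (hM : ∀ n c, D.M n c → Fixes g c) (hv : g *ᵥ D.v = D.v) {n : ℕ}
    {c : Matrix (Fin n → ι) (Fin n → ι) ℂ} (hc : c ∈ D.Inv n) : Fixes g c := by
  obtain ⟨U, lam, h1, h2, hpos, hp⟩ := pos_diag hg
  set θ : ι → ℝ := fun i => Real.log (lam i) with hθ
  have hexp : ∀ i, Real.exp (θ i) = lam i := fun i => Real.exp_log (hpos i)
  let A : ℝ → Matrix ι ι ℂ := fun s =>
    U * diagonal (fun i => ((Real.exp (s * θ i) : ℝ) : ℂ)) * Uᴴ
  have hA1 : A 1 = gᴴ * g := by
    rw [hp]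
    simp only [A, one_mul, hexp]
  have hAadd : ∀ s t, A s * A t = A (s + t) := by
    intro s t
    simp only [A]
    calc _ = U * (diagonal (fun i => ((Real.exp (s * θ i) : ℝ) : ℂ)) * (Uᴴ * U) *
          diagonal (fun i => ((Real.exp (t * θ i) : ℝ) : ℂ))) * Uᴴ := by simp only [mul_assoc]
      _ = _ := by
        rw [h2, mul_one, diagonal_mul_diagonal]
        congr 3
        funext i
        rw [← Complex.ofReal_mul, ← Real.exp_add, ← add_mul]
  have hA0 : A 0 = 1 := by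
    simp only [A, zero_mul, Real.exp_zero, Complex.ofReal_one]
    have : (diagonal fun _ : ι => (1 : ℂ)) = 1 := Matrix.diagonal_one
    rw [this, mul_one, h1]
  have hAstar : ∀ s, (A s)ᴴ = A s := by
    intro s
    simp only [A]
    rw [Matrix.conjTranspose_mul, Matrix.conjTranspose_mul, Matrix.conjTranspose_conjTranspose,
      Matrix.diagonal_conjTranspose, mul_assoc]
    congr 3
    funext i
    exact Complex.conj_ofReal _
  -- the logarithm
  set X : Matrix ι ι ℂ := U * diagonal (fun i => (θ i : ℂ)) * Uᴴ with hX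
  have hfix : ∀ n c, D.M n c → Fixes (gᴴ * g) c := fun n c hc =>
    fixes_mul (D.fixes_star hM n c hc) (hM n c hc)
  have hXL : X ∈ D.L := by
    intro n c hc
    refine kills_log h1 h2 θ ?_
    have h3 := hfix n c hc
    rw [hp] at h3
    simp only [hexp]
    exact h3
  -- the vector
  have hpv : (gᴴ * g) *ᵥ D.v = D.v := by
    rw [← Matrix.mulVec_mulVec, hv, D.star_v hM hv]
  have hAv : ∀ s, A s *ᵥ D.v = D.v := by
    intro s
    set w := Uᴴ *ᵥ D.v with hw
    have hvw : D.v = U *ᵥ w := by rw [hw, Matrix.mulVec_mulVec, h1, Matrix.one_mulVec]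
    have h5 : diagonal (fun i => (lam i : ℂ)) *ᵥ w = w := by
      have h6 : Uᴴ *ᵥ ((gᴴ * g) *ᵥ D.v) = w := by rw [hpv]
      have h7 : Uᴴ * (gᴴ * g) = diagonal (fun i => (lam i : ℂ)) * Uᴴ := by
        rw [hp, ← mul_assoc, ← mul_assoc, h2, one_mul]
      rw [Matrix.mulVec_mulVec, h7, ← Matrix.mulVec_mulVec] at h6
      exact h6
    have h6 : diagonal (fun i => ((Real.exp (s * θ i) : ℝ) : ℂ)) *ᵥ w = w := by
      funext i
      have h7 := congrFun h5 i
      rw [Matrix.mulVec_diagonal] at h7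
      rw [Matrix.mulVec_diagonal]
      by_cases h0 : w i = 0
      · rw [h0, mul_zero]
      · have h8 : (lam i : ℂ) = 1 := mul_right_cancel₀ h0 (by rw [h7, one_mul])
        have h9 : lam i = 1 := by exact_mod_cast h8
        simp only [hθ, h9, Real.log_one, mul_zero, Real.exp_zero, Complex.ofReal_one, one_mul]
    simp only [A]
    rw [← Matrix.mulVec_mulVec, ← hw, ← Matrix.mulVec_mulVec, h6, ← hvw]
  -- the unitary part
  set k : Matrix ι ι ℂ := g * A (-1 / 2) with hk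
  have hku : kᴴ * k = 1 := by
    rw [hk, Matrix.conjTranspose_mul, hAstar]
    calc A (-1 / 2) * gᴴ * (g * A (-1 / 2)) = A (-1 / 2) * (gᴴ * g) * A (-1 / 2) := by
          simp only [mul_assoc]
      _ = 1 := by
        rw [← hA1, hAadd, hAadd]
        norm_num [hA0]
  have hkM : ∀ n c, D.M n c → Fixes k c := fun n c hc =>
    fixes_mul (hM n c hc) (fixes_pow h1 h2 θ (hXL n c hc) _)
  have hkv : k *ᵥ D.v = D.v := by
    rw [hk, ← Matrix.mulVec_mulVec, hAv, hv]
  let k' : D.K := ⟨⟨k, Matrix.mem_unitaryGroup_iff'.2 hku⟩, hkM, hkv⟩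
  have h3 : Fixes k c := hc k'
  have h4 : c ∈ Cm D.L n := D.mem_Cm_of_fixes hc
  have h5 : Fixes (A (1 / 2)) c := fixes_pow h1 h2 θ (h4 X hXL) _
  have h6 : g = k * A (1 / 2) := by
    rw [hk, mul_assoc, hAadd]
    norm_num [hA0]
  rw [h6]
  exact fixes_mul h3 h5

end Dat

end Pool.Agent.D0H78.KG
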