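import Pool.Agent.D0H78.KG.Hil

/-!
# The transcendence degree and the number of monomials
-/

set_option autoImplicit false
set_option linter.unusedSectionVars false

open Module

namespace Pool.Agent.D0H78.KG.Hil

variable {K L J : Type} [Field K] [Field L] [Algebra K L]

/-- The field generated by the numbers. -/
abbrev fld (K : Type) {L J : Type} [Field K] [Field L] [Algebra K L] (x : J → L) :
    IntermediateField K L := IntermediateField.adjoin K (Set.range x)

/-- The numbers as elements of the field which they generate. -/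
def inE (K : Type) {L J : Type} [Field K] [Field L] [Algebra K L] (x : J → L) (j : J) :
    fld K x := ⟨x j, IntermediateField.subset_adjoin _ _ ⟨j, rfl⟩⟩

lemma isAlg (x : J → L) :
    Algebra.IsAlgebraic (Algebra.adjoin K (Set.range (inE K x))) (fld K x) := by
  refine ⟨?_⟩
  rintro ⟨z, hz⟩
  induction hz using IntermediateField.adjoin_induction with
  | mem z hz =>
    obtain ⟨j, rfl⟩ := hz
    exact isAlgebraic_algebraMap
      (⟨inE K x j, Algebra.subset_adjoin ⟨j, rfl⟩⟩ : Algebra.adjoin K (Set.range (inE K x)))
  | algebraMap r =>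
    exact isAlgebraic_algebraMap
      (algebraMap K (Algebra.adjoin K (Set.range (inE K x))) r)
  | add a b ha hb ha' hb' => exact ha'.add hb'
  | inv a ha ha' => exact ha'.inv
  | mul a b ha hb ha' hb' => exact ha'.mul hb'

/-- The transcendence degree. -/
noncomputable def td (K : Type) {L J : Type} [Field K] [Field L] [Algebra K L] (x : J → L) : ℕ :=
  Cardinal.toNat (Algebra.trdeg K (fld K x))

/-- A transcendence basis consisting of some of the numbers. -/
theorem exists_basis [Finite J] (x : J → L) :
    ∃ e : Fin (td K x) → J, AlgebraicIndependent K (fun i => x (e i)) ∧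
      ∀ j, IsAlgebraic (Algebra.adjoin K (Set.range fun i => x (e i))) (x j) := by
  classical
  have := isAlg (K := K) x
  obtain ⟨u, hu, hb⟩ := exists_isTranscendenceBasis_subset (R := K) (A := fld K x)
    (Set.range (inE K x))
  have hfin : u.Finite := (Set.finite_range _).subset hu
  have hfin' : Finite u := hfin.to_subtype
  have hcard : Nat.card u = td K x := by
    rw [td, ← hb.cardinalMk_eq_trdeg]
    rfl
  let e' : Fin (td K x) ≃ u := (Finite.equivFinOfCardEq hcard).symm
  have h1 : ∀ i, ∃ j, inE K x j = (e' i : fld K x) := fun i => hu (e' i).2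
  choose e he using h1
  have hy' : AlgebraicIndependent K (fun i => inE K x (e i)) := by
    have h2 := hb.1.comp e' e'.injective
    convert h2 using 1
    funext i
    exact he i
  have hinj : Function.Injective (fld K x).val := Subtype.val_injective
  have hy : AlgebraicIndependent K (fun i => x (e i)) := hy'.map' hinj
  refine ⟨e, hy, fun j => ?_⟩
  have hr : Set.range (fun i => inE K x (e i)) = Set.range (Subtype.val : u → fld K x) := by
    ext z
    constructor
    · rintro ⟨i, rfl⟩
      exact ⟨e' i, (he i).symm⟩
    · rintro ⟨w, rfl⟩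
      exact ⟨e'.symm w, by simp only [he, Equiv.apply_symm_apply]⟩
  have h2 : IsAlgebraic (Algebra.adjoin K (Set.range fun i => inE K x (e i))) (inE K x j) := by
    rw [hr]
    exact hb.isAlgebraic.1 _
  by_contra h3
  have h4 : AlgebraicIndependent K fun o : Option (Fin (td K x)) =>
      o.elim (x j) fun i => x (e i) := (hy.option_iff_transcendental _).2 h3
  have h5 : AlgebraicIndependent K fun o : Option (Fin (td K x)) =>
      o.elim (inE K x j) fun i => inE K x (e i) := by
    refine ((fld K x).val.algebraicIndependent_iff hinj).1 ?_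
    convert h4 using 1
    funext o
    cases o with
    | none => rfl
    | some i => rfl
  exact ((hy'.option_iff_transcendental _).1 h5) h2

lemma growth_aux [Finite J] (x : J → L) {j₀ : J} (h1 : x j₀ = 1) {t : ℕ} (e : Fin t → J)
    (he : AlgebraicIndependent K (fun i => x (e i)))
    (halg : ∀ j, IsAlgebraic (Algebra.adjoin K (Set.range fun i => x (e i))) (x j)) :
    ∃ c C : ℝ, 0 < c ∧ 0 < C ∧ ∀ n : ℕ, 1 ≤ n →
      c * (n : ℝ) ^ t ≤ Set.finrank K (prods x n) ∧
      (Set.finrank K (prods x n) : ℝ) ≤ C * (n : ℝ) ^ t := by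
  classical
  have : Fintype J := Fintype.ofFinite J
  set V := Submodule.span K (Set.range x) with hV
  have hp : ∀ n, Set.finrank K (prods x n) = finrank K (V ^ n : Submodule K L) := by
    intro n
    rw [Set.finrank, span_prods]
  have hV1 : (1 : L) ∈ V := Submodule.subset_span ⟨j₀, h1⟩
  have hfg : V.FG := Submodule.fg_span (Set.finite_range x)
  obtain ⟨C, hC⟩ := upper (K := K) x halg
  refine ⟨1 / ((t : ℝ) + 1) ^ t, C + 1, by positivity, by positivity, fun n hn => ⟨?_, ?_⟩⟩
  · rw [hp, div_mul_eq_mul_div, one_mul, div_le_iff₀ (by positivity)]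
    have h2 := lower he hV1 (fun i => Submodule.subset_span ⟨e i, rfl⟩) hfg (n := n) (m := n / t)
      (Nat.mul_div_le n t)
    have h3 : n ^ t ≤ ((n / t + 1) * (t + 1)) ^ t := by
      rcases Nat.eq_zero_or_pos t with h0 | h0
      · subst h0; simp
      · refine Nat.pow_le_pow_left ?_ t
        have h4 := Nat.div_add_mod n t
        have h5 := Nat.mod_lt n h0
        nlinarith
    have h4 : n ^ t ≤ finrank K (V ^ n : Submodule K L) * (t + 1) ^ t := by
      refine h3.trans ?_
      rw [mul_pow]
      exact Nat.mul_le_mul_right _ h2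
    exact_mod_cast h4
  · rw [hp]
    have h2 := hC n hn
    have h3 : (finrank K (V ^ n : Submodule K L) : ℝ) ≤ C * (n : ℝ) ^ t := by exact_mod_cast h2
    have h4 : (0 : ℝ) ≤ (n : ℝ) ^ t := by positivity
    nlinarith

/-- **The growth of the number of linearly independent monomials.** -/
theorem growth [Finite J] (x : J → L) {j₀ : J} (h1 : x j₀ = 1) :
    ∃ c C : ℝ, 0 < c ∧ 0 < C ∧ ∀ n : ℕ, 1 ≤ n →
      c * (n : ℝ) ^ td K x ≤ Set.finrank K (prods x n) ∧
      (Set.finrank K (prods x n) : ℝ) ≤ C * (n : ℝ) ^ td K x := by
  obtain ⟨e, he, halg⟩ := exists_basis (K := K) x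
  exact growth_aux x h1 e he halg

end Pool.Agent.D0H78.KG.Hil
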