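import Pool.Agent.D0H78.KG.Grp

/-!
# The volumes of small balls in the compact group
-/

set_option autoImplicit false
set_option linter.unusedSectionVars false

open Matrix Module MeasureTheory
open scoped Matrix.Norms.L2Operator

namespace Pool.Agent.D0H78.KG

open Pool.Agent.D0H93.MT

variable {ι : Type} [Fintype ι] [DecidableEq ι]

instance : FiniteDimensional ℝ (Matrix ι ι ℂ) := FiniteDimensional.trans ℝ ℂ _

namespace Dat

variable (D : Dat ι)

/-- The real dimension of the compact group. -/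
theorem finrank_k : finrank ℝ D.k = finrank ℂ D.L0 := by
  let e : (D.k × D.k) ≃ₗ[ℝ] D.L0 := LinearEquiv.ofBijective
    { toFun := fun p => ⟨(p.1 : Matrix ι ι ℂ) + Complex.I • (p.2 : Matrix ι ι ℂ),
        D.L0.add_mem p.1.2.1 (D.L0.smul_mem _ p.2.2.1)⟩
      map_add' := fun p q => Subtype.ext (by
        simp only [Prod.fst_add, Prod.snd_add, Submodule.coe_add, smul_add]; abel)
      map_smul' := fun c p => Subtype.ext (by
        change c • (p.1 : Matrix ι ι ℂ) + Complex.I • (c • (p.2 : Matrix ι ι ℂ)) =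
          c • ((p.1 : Matrix ι ι ℂ) + Complex.I • (p.2 : Matrix ι ι ℂ))
        rw [smul_add, smul_comm]) } (by
    constructor
    · rw [← LinearMap.ker_eq_bot, LinearMap.ker_eq_bot']
      rintro ⟨⟨X, hX⟩, ⟨Y, hY⟩⟩ h
      have h1 : X + Complex.I • Y = 0 := congrArg Subtype.val h
      have h2 := congrArg Matrix.conjTranspose h1
      rw [Matrix.conjTranspose_add, Matrix.conjTranspose_smul, hX.2, hY.2,
        Matrix.conjTranspose_zero] at h2
      have h3 : -X + Complex.I • Y = 0 := by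
        rw [← h2]; simp
      have h4 : (2 : ℂ) • X = 0 := by
        have : (2 : ℂ) • X = (X + Complex.I • Y) - (-X + Complex.I • Y) := by
          rw [two_smul]; abel
        rw [this, h1, h3, sub_zero]
      have hX0 : X = 0 := (smul_eq_zero.1 h4).resolve_left two_ne_zero
      rw [hX0, zero_add] at h1
      have hY0 : Y = 0 := (smul_eq_zero.1 h1).resolve_left Complex.I_ne_zero
      subst hX0
      subst hY0
      rfl
    · rintro ⟨y, hy⟩
      have hys := D.star_L0 hy
      have h2 : (1 / 2 : ℂ) • (y - yᴴ) ∈ D.k := by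
        refine ⟨D.L0.smul_mem _ (D.L0.sub_mem hy hys), ?_⟩
        rw [Matrix.conjTranspose_smul, Matrix.conjTranspose_sub,
          Matrix.conjTranspose_conjTranspose, ← smul_neg, neg_sub]
        simp
      have h3 : (-Complex.I / 2 : ℂ) • (y + yᴴ) ∈ D.k := by
        refine ⟨D.L0.smul_mem _ (D.L0.add_mem hy hys), ?_⟩
        rw [Matrix.conjTranspose_smul, Matrix.conjTranspose_add,
          Matrix.conjTranspose_conjTranspose, ← neg_smul, add_comm]
        congr 1
        simp [neg_div]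
      refine ⟨(⟨_, h2⟩, ⟨_, h3⟩), Subtype.ext ?_⟩
      change (1 / 2 : ℂ) • (y - yᴴ) + Complex.I • ((-Complex.I / 2 : ℂ) • (y + yᴴ)) = y
      rw [smul_smul]
      have : Complex.I * (-Complex.I / 2) = 1 / 2 := by
        rw [mul_div_assoc', mul_neg, Complex.I_mul_I]; norm_num
      rw [this, ← smul_add]
      have h5 : y - yᴴ + (y + yᴴ) = (2 : ℂ) • y := by rw [two_smul]; abel
      rw [h5, smul_smul]
      norm_num)
  have h1 := e.finrank_eq
  rw [Module.finrank_prod, finrank_real_of_complex] at h1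
  omega

instance : IsTopologicalGroup D.K := inferInstance

/-- The group is compact. -/
theorem compact : CompactSpace D.K := by
  have hemb : Topology.IsClosedEmbedding D.m := by
    refine Topology.IsClosedEmbedding.mk (Topology.IsEmbedding.subtypeVal.comp
      Topology.IsEmbedding.subtypeVal) ?_
    have : Set.range D.m = {M : Matrix ι ι ℂ | M * Mᴴ = 1} ∩
        ((⋂ n, ⋂ c, ⋂ (_ : D.M n c), {M | Fixes M c}) ∩ {M | M *ᵥ D.v = D.v}) := by
      ext M
      constructor
      · rintro ⟨g, rfl⟩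
        refine ⟨D.m_unit g, ?_, D.m_v g⟩
        simp only [Set.mem_iInter]
        exact fun n c hc => D.m_fix g hc
      · rintro ⟨h1, h2, h3⟩
        simp only [Set.mem_iInter] at h2
        exact ⟨⟨⟨M, Matrix.mem_unitaryGroup_iff.2 h1⟩, fun n c hc => h2 n c hc, h3⟩, rfl⟩
    rw [this]
    have hcont : ∀ n, Continuous fun M : Matrix ι ι ℂ => tpow n M := by
      intro n
      refine continuous_matrix fun I J => ?_
      simp only [tpow, Matrix.of_apply]
      exact continuous_finsetProd _ fun k _ => continuous_id.matrix_elem _ _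
    refine IsClosed.inter ?_ (IsClosed.inter ?_ ?_)
    · exact isClosed_eq (continuous_id.matrix_mul continuous_id.matrix_conjTranspose)
        continuous_const
    · refine isClosed_iInter fun n => isClosed_iInter fun c => isClosed_iInter fun _ => ?_
      exact isClosed_eq ((hcont n).matrix_mul continuous_const)
        (continuous_const.matrix_mul (hcont n))
    · exact isClosed_eq (continuous_id.matrix_mulVec continuous_const) continuous_const
  have hprop : ProperSpace (Matrix ι ι ℂ) := FiniteDimensional.proper ℂ _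
  have h1 := hemb.isCompact_preimage (isCompact_closedBall (0 : Matrix ι ι ℂ) 1)
  refine ⟨?_⟩
  convert h1
  symm
  rw [Set.eq_univ_iff_forall]
  intro g
  rw [Set.mem_preimage, mem_closedBall_zero_iff]
  have h2 := CStarRing.norm_self_mul_star (x := D.m g)
  have h3 : D.m g * Star.star (D.m g) = 1 := D.m_unit g
  rw [h3] at h2
  have h4 : ‖(1 : Matrix ι ι ℂ)‖ ≤ 1 := by
    have h5 := Matrix.l2_opNorm_diagonal (𝕜 := ℂ) (fun _ : ι => (1 : ℂ))
    rw [Matrix.diagonal_one] at h5
    rw [h5]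
    exact (pi_norm_le_iff_of_nonneg zero_le_one).2 fun _ => by simp
  nlinarith [norm_nonneg (D.m g)]

instance : CompactSpace D.K := D.compact

noncomputable instance : MeasurableSpace D.K := borel _

instance : BorelSpace D.K := ⟨rfl⟩

/-- The Haar measure. -/
noncomputable def μ : Measure D.K := Measure.haar

instance : D.μ.IsHaarMeasure := inferInstanceAs (Measure.haar (G := D.K)).IsHaarMeasure

instance : IsFiniteMeasure D.μ := inferInstance

/-- The balls. -/
def Bl (x : D.K) (r : ℝ) : Set D.K := {g | ‖D.m g - D.m x‖ ≤ r}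

lemma measurable_Bl (x : D.K) (r : ℝ) : MeasurableSet (D.Bl x r) :=
  (isClosed_le ((D.m_cont.sub continuous_const).norm) continuous_const).measurableSet

/-- The volume of the balls. -/
noncomputable def vol (r : ℝ) : ℝ := D.μ.real (D.Bl 1 r)

lemma real_Bl (x : D.K) (r : ℝ) : D.μ.real (D.Bl x r) = D.vol r := by
  have h1 : D.Bl x r = (fun g => x⁻¹ * g) ⁻¹' (D.Bl 1 r) := by
    ext g
    change ‖D.m g - D.m x‖ ≤ r ↔ ‖D.m (x⁻¹ * g) - D.m 1‖ ≤ r
    have h2 : D.m (x⁻¹ * g) - D.m 1 = D.m x⁻¹ * (D.m g - D.m x) := by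
      rw [mul_sub, ← m_mul, ← m_mul, inv_mul_cancel]
    rw [h2, norm_mul]
  rw [vol, measureReal_def, measureReal_def, h1, measure_preimage_mul]

lemma vol_nonneg (r : ℝ) : 0 ≤ D.vol r := measureReal_nonneg

lemma vol_mono {r s : ℝ} (h : r ≤ s) : D.vol r ≤ D.vol s :=
  measureReal_mono (fun _ hg => le_trans hg h)

lemma vol_pos {r : ℝ} (h : 0 < r) : 0 < D.vol r := by
  have h1 : IsOpen {g : D.K | ‖D.m g - D.m 1‖ < r} :=
    isOpen_lt ((D.m_cont.sub continuous_const).norm) continuous_const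
  have h2 : ({g : D.K | ‖D.m g - D.m 1‖ < r}).Nonempty := ⟨1, by
    change ‖D.m 1 - D.m 1‖ < r
    rw [sub_self, norm_zero]; exact h⟩
  have h3 := h1.measure_pos D.μ h2
  rw [vol, measureReal_def]
  refine ENNReal.toReal_pos ?_ (measure_ne_top _ _)
  exact (lt_of_lt_of_le h3 (measure_mono fun g (hg : ‖D.m g - D.m 1‖ < r) => hg.le)).ne'

/-- The total volume. -/
noncomputable def tot : ℝ := D.μ.real Set.univ

lemma tot_pos : 0 < D.tot :=
  lt_of_lt_of_le (D.vol_pos one_pos) (measureReal_mono (Set.subset_univ _))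

/-- Packing. -/
lemma packing {T : Type} [Fintype T] (x : T → D.K) {r : ℝ}
    (h : ∀ i j, i ≠ j → 2 * r < ‖D.m (x i) - D.m (x j)‖) :
    (Fintype.card T : ℝ) * D.vol r ≤ D.tot := by
  have h1 : Pairwise (Function.onFun Disjoint fun i => D.Bl (x i) r) := by
    intro i j hij
    rw [Function.onFun, Set.disjoint_left]
    intro g hg hg'
    have h2 := h i j hij
    have h3 : ‖D.m g - D.m (x i)‖ ≤ r := hg
    have h4 : ‖D.m g - D.m (x j)‖ ≤ r := hg'
    have h5 : D.m (x i) - D.m (x j) = (D.m g - D.m (x j)) - (D.m g - D.m (x i)) := by abel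
    rw [h5] at h2
    have h6 := norm_sub_le (D.m g - D.m (x j)) (D.m g - D.m (x i))
    linarith
  have h2 := measureReal_iUnion_fintype (μ := D.μ) h1 fun i => D.measurable_Bl (x i) r
  have h3 : D.μ.real (⋃ i, D.Bl (x i) r) ≤ D.tot := measureReal_mono (Set.subset_univ _)
  rw [h2] at h3
  simp only [real_Bl, Finset.sum_const, Finset.card_univ, nsmul_eq_mul] at h3
  exact h3

/-- Covering. -/
lemma covering {T : Type} (S : Finset T) (x : T → D.K) {r s : ℝ}
    (h : ∀ g : D.K, ‖D.m g - 1‖ ≤ s → ∃ i ∈ S, ‖D.m g - D.m (x i)‖ ≤ r) :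
    D.vol s ≤ (S.card : ℝ) * D.vol r := by
  have h1 : D.Bl 1 s ⊆ ⋃ i ∈ S, D.Bl (x i) r := by
    intro g hg
    obtain ⟨i, hi, h2⟩ := h g hg
    exact Set.mem_biUnion hi h2
  have h2 : D.vol s ≤ D.μ.real (⋃ i ∈ S, D.Bl (x i) r) :=
    measureReal_mono h1 (measure_ne_top _ _)
  refine h2.trans ((measureReal_biUnion_finset_le S _).trans ?_)
  simp only [real_Bl, Finset.sum_const, nsmul_eq_mul]
  exact le_rfl

/-- The exponential is close to an isometry near the origin. -/
lemma exists_exp : ∃ R : ℝ, 0 < R ∧ ∀ X Y : Matrix ι ι ℂ, ‖X‖ ≤ R → ‖Y‖ ≤ R →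
    ‖X - Y‖ ≤ 2 * ‖NormedSpace.exp X - NormedSpace.exp Y‖ ∧
    ‖NormedSpace.exp X - NormedSpace.exp Y‖ ≤ 3 / 2 * ‖X - Y‖ := by
  have h1 := hasStrictFDerivAt_exp_zero (𝕂 := ℂ) (𝔸 := Matrix ι ι ℂ)
  have h2 := h1.isLittleO.def (c := 1 / 2) (by norm_num)
  rw [Metric.eventually_nhds_iff] at h2
  obtain ⟨ε, hε, h3⟩ := h2
  refine ⟨ε / 2, half_pos hε, fun X Y hX hY => ?_⟩
  have h4 := h3 (y := (X, Y)) (by
    rw [Prod.dist_eq, max_lt_iff]
    constructor
    · change dist X 0 < ε
      rw [dist_zero_right]; linarith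
    · change dist Y 0 < ε
      rw [dist_zero_right]; linarith)
  have h5 : ‖NormedSpace.exp X - NormedSpace.exp Y - (X - Y)‖ ≤ 1 / 2 * ‖X - Y‖ := h4
  have h6 := norm_sub_norm_le (X - Y) (-(NormedSpace.exp X - NormedSpace.exp Y - (X - Y)))
  have h7 := norm_add_le (NormedSpace.exp X - NormedSpace.exp Y - (X - Y)) (X - Y)
  rw [sub_neg_eq_add, norm_neg] at h6
  rw [sub_add_cancel] at h7
  have h8 : X - Y + (NormedSpace.exp X - NormedSpace.exp Y - (X - Y)) =
      NormedSpace.exp X - NormedSpace.exp Y := by abel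
  rw [h8] at h6
  constructor <;> linarith

/-- A basis of the Lie algebra with bounds for the coordinates. -/
lemma exists_coord {d : ℕ} (hd : finrank ℝ D.k = d) :
    ∃ (e : Basis (Fin d) ℝ D.k) (κ E : ℝ), 0 < κ ∧ 0 < E ∧
    (∀ (x : D.k) a, |e.repr x a| ≤ κ * ‖(x : Matrix ι ι ℂ)‖) ∧
    ∀ (c : Fin d → ℝ) (η : ℝ), 0 ≤ η → (∀ a, |c a| ≤ η) →
      ‖((∑ a, c a • e a : D.k) : Matrix ι ι ℂ)‖ ≤ η * E := by
  let e : Basis (Fin d) ℝ D.k := finBasisOfFinrankEq ℝ D.k hd
  have h1 : ∀ a, ∃ κ : ℝ, 0 ≤ κ ∧ ∀ x : D.k, |e.repr x a| ≤ κ * ‖(x : Matrix ι ι ℂ)‖ := by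
    intro a
    let f : D.k →L[ℝ] ℝ := LinearMap.toContinuousLinearMap (e.coord a)
    refine ⟨‖f‖, f.opNorm_nonneg, fun x => ?_⟩
    have := f.le_opNorm x
    exact this
  choose κ hκ0 hκ using h1
  refine ⟨e, ∑ a, κ a + 1, ∑ a, ‖((e a : D.k) : Matrix ι ι ℂ)‖ + 1, ?_, ?_, ?_, ?_⟩
  · have : 0 ≤ ∑ a, κ a := Finset.sum_nonneg fun a _ => hκ0 a
    linarith
  · have : 0 ≤ ∑ a, ‖((e a : D.k) : Matrix ι ι ℂ)‖ := Finset.sum_nonneg fun a _ => norm_nonneg _
    linarith
  · intro x a
    refine (hκ a x).trans (mul_le_mul_of_nonneg_right ?_ (norm_nonneg _))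
    have : κ a ≤ ∑ a, κ a := Finset.single_le_sum (fun a _ => hκ0 a) (Finset.mem_univ a)
    linarith
  · intro c η hη hc
    rw [Submodule.coe_sum]
    refine (norm_sum_le _ _).trans ?_
    have h2 : ∑ a, ‖((c a • e a : D.k) : Matrix ι ι ℂ)‖ ≤
        ∑ a, η * ‖((e a : D.k) : Matrix ι ι ℂ)‖ := by
      refine Finset.sum_le_sum fun a _ => ?_
      rw [Submodule.coe_smul, norm_smul, Real.norm_eq_abs]
      exact mul_le_mul_of_nonneg_right (hc a) (norm_nonneg _)
    rw [← Finset.mul_sum] at h2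
    nlinarith

/-- The upper bound for the volume. -/
theorem vol_upper {d : ℕ} (hd : finrank ℝ D.k = d) :
    ∃ C : ℝ, 0 < C ∧ ∀ r : ℝ, 0 < r → D.vol r ≤ C * r ^ d := by
  obtain ⟨R, hR, hexp⟩ := exists_exp (ι := ι)
  obtain ⟨e, κ, E, hκ, hE, hco, hsum⟩ := D.exists_coord hd
  refine ⟨D.tot * (5 * κ * E / R) ^ d, mul_pos D.tot_pos (by positivity), fun r hr => ?_⟩
  set η := 5 * r * κ with hη
  have hη0 : 0 < η := by positivity
  set M : ℕ := ⌊R / (η * E)⌋₊ with hM
  let X : (Fin d → Fin (M + 1)) → D.k := fun n => ∑ a, (η * (n a : ℕ)) • e a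
  have hXk : ∀ n, (X n : Matrix ι ι ℂ) ∈ D.k := fun n => (X n).2
  have hXR : ∀ n, ‖(X n : Matrix ι ι ℂ)‖ ≤ R := by
    intro n
    refine (hsum (fun a => η * (n a : ℕ)) (η * M) (by positivity) fun a => ?_).trans ?_
    · rw [abs_of_nonneg (by positivity)]
      exact mul_le_mul_of_nonneg_left (by exact_mod_cast Nat.lt_succ_iff.1 (n a).2) hη0.le
    · have h1 : (M : ℝ) ≤ R / (η * E) := Nat.floor_le (by positivity)
      calc η * M * E = M * (η * E) := by ring
        _ ≤ R / (η * E) * (η * E) := mul_le_mul_of_nonneg_right h1 (by positivity)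
        _ = R := div_mul_cancel₀ _ (by positivity)
  have hpack := D.packing (fun n => D.ex (hXk n)) (r := r) (by
    intro n n' hne
    obtain ⟨a, ha⟩ := Function.ne_iff.1 hne
    have h1 := hco (X n - X n') a
    have h2 : e.repr (X n - X n') a = η * ((n a : ℕ) : ℝ) - η * ((n' a : ℕ) : ℝ) := by
      rw [map_sub, Finsupp.sub_apply]
      simp only [X, Basis.repr_sum_self]
    rw [h2, ← mul_sub, abs_mul, abs_of_pos hη0] at h1
    have h3 : (1 : ℝ) ≤ |((n a : ℕ) : ℝ) - ((n' a : ℕ) : ℝ)| := by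
      have h4 : ((n a : ℕ) : ℤ) - ((n' a : ℕ) : ℤ) ≠ 0 := by
        intro h5
        apply ha
        apply Fin.ext
        exact_mod_cast sub_eq_zero.1 h5
      have h5 := Int.one_le_abs h4
      exact_mod_cast h5
    have h4 : η ≤ κ * ‖((X n - X n' : D.k) : Matrix ι ι ℂ)‖ := by
      refine le_trans ?_ h1
      nlinarith
    have h5 : 5 * r ≤ ‖(X n : Matrix ι ι ℂ) - (X n' : Matrix ι ι ℂ)‖ := by
      have h6 : κ * (5 * r) ≤ κ * ‖((X n - X n' : D.k) : Matrix ι ι ℂ)‖ := by
        rw [hη] at h4; linarith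
      exact le_of_mul_le_mul_left h6 hκ
    have h6 := (hexp _ _ (hXR n) (hXR n')).1
    rw [m_ex, m_ex]
    linarith)
  have hcard : (Fintype.card (Fin d → Fin (M + 1)) : ℝ) = ((M : ℝ) + 1) ^ d := by
    rw [Fintype.card_fun, Fintype.card_fin, Fintype.card_fin]
    push_cast
    rfl
  rw [hcard] at hpack
  have h1 : R / (η * E) < M + 1 := Nat.lt_floor_add_one _
  have h2 : (R / (η * E)) ^ d * D.vol r ≤ D.tot :=
    (mul_le_mul_of_nonneg_right (pow_le_pow_left₀ (by positivity) h1.le d) (D.vol_nonneg r)).trans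
      hpack
  have h3 : (R / (η * E)) ^ d * (5 * κ * E / R) ^ d * r ^ d = 1 := by
    rw [← mul_pow, ← mul_pow]
    have : R / (η * E) * (5 * κ * E / R) * r = 1 := by
      rw [hη]; field_simp
    rw [this, one_pow]
  calc D.vol r = ((R / (η * E)) ^ d * (5 * κ * E / R) ^ d * r ^ d) * D.vol r := by
        rw [h3, one_mul]
    _ = ((R / (η * E)) ^ d * D.vol r) * ((5 * κ * E / R) ^ d * r ^ d) := by ring
    _ ≤ D.tot * ((5 * κ * E / R) ^ d * r ^ d) :=
        mul_le_mul_of_nonneg_right h2 (by positivity)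
    _ = _ := by ring

/-- The lower bound for the volume. -/
theorem vol_lower {d : ℕ} (hd : finrank ℝ D.k = d) :
    ∃ c : ℝ, 0 < c ∧ ∀ r : ℝ, 0 < r → r ≤ 1 → c * r ^ d ≤ D.vol r := by
  obtain ⟨R, hR, hexp⟩ := exists_exp (ι := ι)
  obtain ⟨e, κ, E, hκ, hE, hco, hsum⟩ := D.exists_coord hd
  obtain ⟨r₀, hr₀, hlog⟩ := D.exists_log (half_pos hR)
  -- small radii
  set r₁ := min 1 (3 * R / 4) with hr₁
  have hr₁0 : 0 < r₁ := lt_min one_pos (by positivity)
  set A := 3 * κ * R * E + 5 with hA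
  have hA0 : 0 < A := by positivity
  have hv : 0 < D.vol (r₀ / 2) := D.vol_pos (half_pos hr₀)
  have key : ∀ r : ℝ, 0 < r → r ≤ r₁ → D.vol (r₀ / 2) / A ^ d * r ^ d ≤ D.vol r := by
    intro r hr hr1
    set η := 2 * r / (3 * E) with hη
    have hη0 : 0 < η := by positivity
    set N : ℕ := ⌈κ * R / η⌉₊ + 1 with hN
    let S : Finset (Fin d → ℤ) := Fintype.piFinset fun _ => Finset.Icc (-(N : ℤ)) N
    let X : (Fin d → ℤ) → D.k := fun n => ∑ a, (η * (n a : ℝ)) • e a
    have hcov := D.covering S (fun n => D.ex (X n).2) (r := r) (s := r₀ / 2) (by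
      intro g hg
      obtain ⟨Y, hY, hYR, hYg⟩ := hlog g (lt_of_le_of_lt hg (half_lt_self hr₀))
      let y : D.k := ⟨Y, hY⟩
      let n : Fin d → ℤ := fun a => ⌊e.repr y a / η⌋
      have hn1 : ∀ a, |e.repr y a - η * (n a : ℝ)| ≤ η := by
        intro a
        have h1 := Int.floor_le (e.repr y a / η)
        have h2 := Int.lt_floor_add_one (e.repr y a / η)
        rw [le_div_iff₀ hη0] at h1
        rw [div_lt_iff₀ hη0] at h2
        rw [abs_le]
        constructor <;> nlinarith
      have hn2 : ∀ a, n a ∈ Finset.Icc (-(N : ℤ)) N := by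
        intro a
        have h1 : |e.repr y a / η| ≤ κ * R / η := by
          rw [abs_div, abs_of_pos hη0]
          refine div_le_div_of_nonneg_right ((hco y a).trans ?_) hη0.le
          exact mul_le_mul_of_nonneg_left (hYR.trans (by linarith)) hκ.le
        have h2 : κ * R / η ≤ ⌈κ * R / η⌉₊ := Nat.le_ceil _
        have h3 := abs_le.1 (h1.trans h2)
        rw [Finset.mem_Icc]
        constructor
        · have h4 := Int.lt_floor_add_one (e.repr y a / η)
          have h5 : (-(N : ℤ) : ℝ) ≤ (n a : ℝ) := by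
            rw [hN]; push_cast; linarith
          exact_mod_cast h5
        · have h4 := Int.floor_le (e.repr y a / η)
          have h5 : (n a : ℝ) ≤ ((N : ℤ) : ℝ) := by
            rw [hN]; push_cast; linarith
          exact_mod_cast h5
      refine ⟨n, Fintype.mem_piFinset.2 hn2, ?_⟩
      have h1 : (Y : Matrix ι ι ℂ) - (X n : Matrix ι ι ℂ) =
          ((∑ a, (e.repr y a - η * (n a : ℝ)) • e a : D.k) : Matrix ι ι ℂ) := by
        have h2 : y - X n = ∑ a, (e.repr y a - η * (n a : ℝ)) • e a := by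
          conv_lhs => rw [← e.sum_repr y]
          rw [← Finset.sum_sub_distrib]
          exact Finset.sum_congr rfl fun a _ => (sub_smul _ _ _).symm
        rw [← h2]
        rfl
      have h2 : ‖(Y : Matrix ι ι ℂ) - (X n : Matrix ι ι ℂ)‖ ≤ η * E := by
        rw [h1]
        exact hsum _ η hη0.le hn1
      have h3 : η * E = 2 * r / 3 := by rw [hη]; field_simp
      have h4 : ‖(X n : Matrix ι ι ℂ)‖ ≤ R := by
        have h5 := norm_le_norm_add_norm_sub' (X n : Matrix ι ι ℂ) Y
        have h6 : r ≤ 3 * R / 4 := hr1.trans (min_le_right _ _)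
        rw [norm_sub_rev] at h2
        have h7 : (X n : Matrix ι ι ℂ) = Y + ((X n : Matrix ι ι ℂ) - Y) := by abel
        rw [h7]
        refine (norm_add_le _ _).trans ?_
        linarith
      have h5 := (hexp Y (X n) (hYR.trans (by linarith)) h4).2
      rw [← hYg, m_ex, m_ex]
      refine h5.trans ?_
      rw [h3] at h2
      linarith)
    have hcard : (S.card : ℝ) = (2 * (N : ℝ) + 1) ^ d := by
      have h1 : S.card = (2 * N + 1) ^ d := by
        rw [Fintype.card_piFinset]
        simp only [Int.card_Icc, Finset.prod_const, Finset.card_univ, Fintype.card_fin]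
        congr 1
        omega
      rw [h1]; push_cast; rfl
    rw [hcard] at hcov
    have h1 : 2 * (N : ℝ) + 1 ≤ A / r := by
      have h2 : (⌈κ * R / η⌉₊ : ℝ) < κ * R / η + 1 := Nat.ceil_lt_add_one (by positivity)
      have h3 : κ * R / η = 3 * κ * R * E / (2 * r) := by rw [hη]; field_simp
      have h4 : r ≤ 1 := hr1.trans (min_le_left _ _)
      have h2' : (⌈κ * R / η⌉₊ : ℝ) < 3 * κ * R * E / (2 * r) + 1 := h2.trans_eq (by rw [h3])
      rw [le_div_iff₀ hr, hN]
      push_cast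
      have h5 : 3 * κ * R * E / (2 * r) * (2 * r) = 3 * κ * R * E :=
        div_mul_cancel₀ _ (by positivity)
      have h6 := mul_lt_mul_of_pos_right h2' (show 0 < 2 * r by positivity)
      rw [add_mul, h5] at h6
      rw [hA]
      linarith
    have h2 : D.vol (r₀ / 2) ≤ (A / r) ^ d * D.vol r :=
      hcov.trans (mul_le_mul_of_nonneg_right (pow_le_pow_left₀ (by positivity) h1 d)
        (D.vol_nonneg r))
    rw [div_mul_eq_mul_div, div_le_iff₀ (by positivity)]
    rw [div_pow, div_mul_eq_mul_div, le_div_iff₀ (by positivity)] at h2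
    linarith
  refine ⟨D.vol (r₀ / 2) / A ^ d * r₁ ^ d, by positivity, fun r hr hr1 => ?_⟩
  rcases le_total r r₁ with h | h
  · refine le_trans ?_ (key r hr h)
    have h2 : r₁ ^ d ≤ 1 := pow_le_one₀ hr₁0.le (min_le_left _ _)
    have h3 : 0 ≤ D.vol (r₀ / 2) / A ^ d := by positivity
    have h4 : 0 ≤ r ^ d := by positivity
    calc _ = D.vol (r₀ / 2) / A ^ d * r ^ d * r₁ ^ d := by ring
      _ ≤ D.vol (r₀ / 2) / A ^ d * r ^ d * 1 := mul_le_mul_of_nonneg_left h2 (by positivity)
      _ = _ := mul_one _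
  · refine le_trans ?_ ((key r₁ hr₁0 le_rfl).trans (D.vol_mono h))
    have h2 : r ^ d ≤ 1 := pow_le_one₀ hr.le hr1
    calc _ ≤ D.vol (r₀ / 2) / A ^ d * r₁ ^ d * 1 := mul_le_mul_of_nonneg_left h2 (by positivity)
      _ = _ := mul_one _

end Dat

end Pool.Agent.D0H78.KG
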